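import Pool.Agent.Lib.MP_48149e.Harmonic

/-!
The density bound: in every cylinder a 3-product-free set has mean at most `1/3`.
-/

namespace Pool.Agent.Lib.MP_48149e

variable {α : Type*} [Fintype α] [Nonempty α]

omit [Fintype α] [Nonempty α] in
theorem q_inter_eq_empty {S : Set (List α)} (h3 : ThreeProductFree S) {x y : List α}
    (hx : x ∈ S) (hy : y ∈ S) (w : List α) : q (x ++ y ++ w) S ∩ q w S = ∅ := by
  ext z
  simp only [Set.mem_inter_iff, mem_q, Set.mem_empty_iff_false, iff_false, not_and]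
  intro h1 h2
  refine h3 x hx y hy _ h2 ?_
  simpa only [List.append_assoc] using h1

theorem quot_le (m : Mean α) {S : Set (List α)} (h3 : ThreeProductFree S) (u : List α) :
    m.d (q u S) ≤ 1 / 3 := by
  set φ : List α → ℝ := fun u => m.d (q u S) with hφ
  have hharm : Harm φ := harm_mean m S
  have hbdd : BddAbove (Set.range φ) := ⟨1, by rintro _ ⟨u, rfl⟩; exact m.le_one _⟩
  set M : ℝ := ⨆ u, φ u with hM
  have hle : ∀ u, φ u ≤ M := fun u => le_ciSup hbdd u
  have hnear : ∀ δ > 0, ∃ u, M - δ < φ u := fun δ hδ =>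
    exists_lt_of_lt_ciSup (by linarith : M - δ < ⨆ u, φ u)
  suffices hM3 : M ≤ 1 / 3 from (hle u).trans hM3
  by_contra hcon
  rw [not_le] at hcon
  set ψ : List α → ℝ := fun w => M - φ w with hψ
  have hψh : Harm ψ := hharm.const_sub M
  have hψ0 : ∀ w, 0 ≤ ψ w := fun w => by
    show 0 ≤ M - φ w
    linarith [hle w]
  -- good elements of `S`
  have b1 : ∀ δ > 0, ∃ x ∈ S, ψ x ≤ δ := by
    intro δ hδ
    by_contra hno
    push Not at hno
    set δ₁ : ℝ := min δ 1 with hδ₁
    have hδ₁0 : 0 < δ₁ := lt_min hδ one_pos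
    have hδ₁1 : δ₁ ≤ 1 := min_le_right _ _
    obtain ⟨u, hu⟩ := hnear (δ₁ * M / 4) (by positivity)
    have h1 := hψh.mean_le m (c := 0) (C := δ₁) hψ0 hδ₁0.le u (q u S) (fun w hw =>
      (min_le_left _ _).trans (hno _ hw).le)
    have h2 : 0 + (δ₁ - 0) * φ u ≤ M - φ u := h1
    have h3 : δ₁ * M ≤ 1 * M := by gcongr
    have h4 : 3 * M / 4 < φ u := by linarith
    have h5 : δ₁ * (3 * M / 4) < δ₁ * φ u := by gcongr
    nlinarith
  have b2 : ∀ ε > 0, ∃ y ∈ S, ψ y ≤ ε ∧ m.d (q y S ∩ S) ≤ ε := by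
    intro ε hε
    by_cases hcase : ∃ e ∈ S, m.d (q e S ∩ S) = 0 ∧ ψ e ≤ ε
    · obtain ⟨e, he, h0, h1⟩ := hcase
      exact ⟨e, he, h1, h0 ▸ hε.le⟩
    · push Not at hcase
      obtain ⟨y, hy, hyψ⟩ := b1 (min ε (ε ^ 2)) (by positivity)
      refine ⟨y, hy, hyψ.trans (min_le_left _ _), ?_⟩
      have h1 := hψh.mean_le m (c := 0) (C := ε) hψ0 hε.le y (q y S ∩ S) (fun s hs => by
        refine (hcase (y ++ s) hs.1 ?_).le
        have := q_inter_eq_empty h3 hy hs.2 []
        rw [List.append_nil, q_nil] at this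
        rw [this, m.empty])
      have h2 : ψ y ≤ ε ^ 2 := hyψ.trans (min_le_right _ _)
      have h3 : ε * m.d (q y S ∩ S) ≤ ε * ε := by nlinarith
      exact le_of_mul_le_mul_left h3 hε
  -- three almost disjoint quotients
  set κ : ℝ := (M - 1 / 3) / 2 with hκ
  have hκ0 : 0 < κ := by rw [hκ]; linarith
  obtain ⟨u₀, hu₀⟩ := hnear κ hκ0
  have hc := card_pos (α := α)
  have hN : ∀ n : ℕ, (0 : ℝ) < (Fintype.card α : ℝ) ^ n := fun n => by positivity
  obtain ⟨y, hy, hy1, hy2⟩ := b2 (κ / (Fintype.card α : ℝ) ^ u₀.length) (by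
    have := hN u₀.length; positivity)
  obtain ⟨x, hx, hx1, hx2⟩ := b2 (κ / (Fintype.card α : ℝ) ^ (y ++ u₀).length) (by
    have := hN (y ++ u₀).length; positivity)
  rw [le_div_iff₀ (hN _)] at hy1 hy2 hx1 hx2
  have e1 : ψ (y ++ u₀) ≤ κ := by
    have := hψh.harnack hψ0 y u₀
    linarith
  have e2 : ψ (x ++ (y ++ u₀)) ≤ κ := by
    have := hψh.harnack hψ0 x (y ++ u₀)
    linarith
  have e3 : m.d (q (y ++ u₀) S ∩ q u₀ S) ≤ κ := by
    have := (harm_mean m (q y S ∩ S)).harnack (fun w => m.nonneg _) [] u₀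
    simp only [List.nil_append, q_inter, q_q, List.append_nil, q_nil] at this
    linarith
  have e4 : m.d (q (x ++ (y ++ u₀)) S ∩ q (y ++ u₀) S) ≤ κ := by
    have := (harm_mean m (q x S ∩ S)).harnack (fun w => m.nonneg _) [] (y ++ u₀)
    simp only [List.nil_append, q_inter, q_q, List.append_nil, q_nil] at this
    linarith
  have e5 : q (x ++ (y ++ u₀)) S ∩ q u₀ S = ∅ := by
    have := q_inter_eq_empty h3 hx hy u₀
    rwa [List.append_assoc] at this
  set A := q u₀ S with hA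
  set B := q (y ++ u₀) S with hB
  set C := q (x ++ (y ++ u₀)) S with hC
  have f1 : M - m.d B ≤ κ := e1
  have f2 : M - m.d C ≤ κ := e2
  have f0 : M - κ < m.d A := hu₀
  have f3 := m.union_add_inter B A
  have f4 := m.union_add_inter C (B ∪ A)
  have f5 : m.d (C ∩ (B ∪ A)) ≤ κ := by
    rw [Set.inter_union_distrib_left, e5, Set.union_empty]
    exact e4
  have f6 := m.le_one (C ∪ (B ∪ A))
  linarith

/-- In the extremal case the set is equidistributed in all cylinders. -/
theorem quot_eq (m : Mean α) {S : Set (List α)} (h3 : ThreeProductFree S)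
    (hS : m.d S = 1 / 3) (u : List α) : m.d (q u S) = 1 / 3 := by
  have h1 := ((harm_mean m S).const_sub (1 / 3)).zero_of_zero (fun w => by
    have := quot_le m h3 w
    show 0 ≤ 1 / 3 - m.d (q w S)
    linarith) (u := []) (by
      show 1 / 3 - m.d (q [] S) = 0
      rw [q_nil, hS, sub_self]) u
  have h2 : 1 / 3 - m.d (q ([] ++ u) S) = 0 := h1
  rw [List.nil_append] at h2
  linarith

end Pool.Agent.Lib.MP_48149e
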