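import Pool.Agent.Lib.MP_48149e.Group

/-!
The two cases: three states, or six states.
-/

set_option linter.unusedSectionVars false
set_option linter.unusedVariables false

namespace Pool.Agent.Lib.MP_48149e

variable {α : Type*} [Fintype α] [Nonempty α] {m : Mean α} {S : Set (List α)}

theorem label_append {N : ℕ} (lab : α → ZMod N) (u v : List α) :
    label lab (u ++ v) = label lab u + label lab v := by
  simp [label]

/-- The elements of `S` which are not orthogonal to the empty word. -/
def Y (m : Mean α) (S : Set (List α)) : Set (List α) := {x | x ∈ S ∧ ¬ Perp m S x []}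

theorem Ext.X_add_Y (E : Ext m S) (u : List α) :
    m.d (q u (X m S)) + m.d (q u (Y m S)) = 1 / 3 := by
  rw [← E.eq u, ← m.union]
  · congr 1
    ext w
    simp only [Set.mem_union, mem_q]
    constructor
    · rintro (h | h)
      · exact h.1
      · exact h.1
    · intro h
      by_cases h' : Perp m S (u ++ w) []
      · exact Or.inl ⟨h, h'⟩
      · exact Or.inr ⟨h, h'⟩
  · rw [Set.disjoint_left]
    intro w h1 h2
    exact h2.2 h1.2

/-- Elements of `S ∩ SS` belong to `X`. -/
theorem Ext.mem_X (E : Ext m S) {x y : List α} (hx : x ∈ S) (hy : y ∈ S) (h : x ++ y ∈ S) :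
    x ++ y ∈ X m S := ⟨h, E.perp_mul hx hy⟩

/-- First case: `X` has full density. -/
theorem caseA (E : Ext m S) (hY : m.d (Y m S) = 0) :
    ∃ lab : α → ZMod 3, ∀ w ∈ S, label lab w = 1 := by
  have hX1 : m.d (X m S) = 1 / 3 := by
    have := E.X_add_Y []
    rw [q_nil, q_nil, hY, add_zero] at this
    exact this
  have hX : 0 < m.d (X m S) := by rw [hX1]; norm_num
  obtain ⟨x, hx⟩ := m.exists_mem_of_pos hX
  obtain ⟨lab, h1, h2⟩ := final E hX (N := 3) (X m S) (fun u => by
      rw [mean_X_const E hX, hX1]; norm_num) ![[], x, x ++ x] rfl (by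
      intro k z hz
      change Fin 3 at k
      fin_cases k
      · show Eqv m S ([] ++ z) x
        simpa using E.x_eqv hX hz hx
      · show Eqv m S (x ++ z) (x ++ x)
        exact E.xx_eqv hX hx hz hx hx
      · show Eqv m S (x ++ x ++ z) []
        rw [List.append_assoc]
        exact E.xxx hx hx hz) (by
      intro k hk
      have hperp1 : ¬ Eqv m S x [] := fun h => by
        have h3 := hx.2
        unfold Perp at h3
        unfold Eqv at h
        rw [h3] at h
        norm_num at h
      have hperp2 : ¬ Eqv m S (x ++ x) [] := fun h => by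
        have h3 := E.perp_mul hx.1 hx.1
        unfold Perp at h3
        unfold Eqv at h
        rw [h3] at h
        norm_num at h
      change Fin 3 at k
      fin_cases k
      · rfl
      · exact absurd (by simpa using hk) hperp1
      · exact absurd (by simpa using hk) hperp2)
  refine ⟨lab, fun s hs => ?_⟩
  have h3 : ∀ w, Perp m S w [] → label lab w ≠ 0 := by
    intro w hw h0
    have h4 := h1 w
    rw [h0] at h4
    have h5 : Eqv m S w [] := h4
    unfold Perp at hw
    unfold Eqv at h5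
    rw [hw] at h5
    norm_num at h5
  have h4 := h3 _ (E.perp_mul hs hs)
  have h5 := h3 _ (E.perp_mul hs hx.1)
  rw [label_append] at h4 h5
  rw [h2 x hx] at h5
  revert h4 h5
  generalize label lab s = j
  revert j
  decide

/-- The words `v` for which some `v'` in `S` has `v' v ∈ S`. -/
def EE (S : Set (List α)) : Set (List α) := {v | ∃ a ∈ S, a ++ v ∈ S}

/-- The words orthogonal to the empty word. -/
def V (m : Mean α) (S : Set (List α)) : Set (List α) := {v | Perp m S v []}

theorem mem_EE_of {y s : List α} (hy : y ∈ S) (h : y ++ s ∈ S) : s ∈ EE S := ⟨y, hy, h⟩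

theorem Ext.gr_one_third_ne {u : List α} (hu : Perp m S u []) : ¬ Eqv m S u [] := by
  intro h
  unfold Perp at hu
  unfold Eqv at h
  rw [hu] at h
  norm_num at h

/-- If `X` does not have full density, it still has positive density. -/
theorem Ext.X_pos (E : Ext m S) (hY : 0 < m.d (Y m S)) : 0 < m.d (X m S) := by
  obtain ⟨y, hy⟩ := m.exists_mem_of_pos hY
  have h1 : 0 < m.d (q y S ∩ S) := lt_of_le_of_ne (m.nonneg _) (Ne.symm hy.2)
  have h2 : m.d (q y S ∩ S) ≤ m.d (q y (X m S)) :=
    m.mono fun s hs => E.mem_X hy.1 hs.2 hs.1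
  by_contra hcon
  have h3 : m.d (X m S) = 0 := le_antisymm (not_lt.1 hcon) (m.nonneg _)
  have h4 := m.null_q h3 y
  linarith

theorem V_const (E : Ext m S) (hX : 0 < m.d (X m S)) (u : List α) :
    m.d (q u (V m S)) = m.d (V m S) := by
  refine sd_const E hX (fun u hu => ?_) u
  congr 1
  ext w
  have h1 : Eqv m S (u ++ w) w := by simpa using E.eqv_right hu w
  have h2 := E.gr_congr h1 []
  show gr m S (u ++ w) [] = 0 ↔ gr m S w [] = 0
  rw [h2]

/-- `ν < 2/3`. -/
theorem nu_lt (E : Ext m S) (hY : 0 < m.d (Y m S)) : m.d (V m S) < 2 / 3 := by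
  have hX := E.X_pos hY
  obtain ⟨x, hx⟩ := m.exists_mem_of_pos hX
  by_contra hcon
  rw [not_lt] at hcon
  set W : Set (List α) := (V m S)ᶜ with hW
  have hWd : ∀ u, m.d (q u W) ≤ 1 / 3 := by
    intro u
    rw [hW, q_compl, m.compl, V_const E hX]
    linarith
  have htriple : ∀ w, gr m S w [] + gr m S (x ++ w) [] + gr m S (x ++ (x ++ w)) [] = 1 / 3 := by
    intro w
    have := E.triple hx hx w (q [] S)
    rw [E.eq] at this
    exact this
  have hcover : W ∪ (q x W ∪ q (x ++ x) W) = Set.univ := by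
    rw [Set.eq_univ_iff_forall]
    intro w
    by_contra hw
    simp only [Set.mem_union, not_or, mem_q, hW, Set.mem_compl_iff, not_not] at hw
    obtain ⟨h1, h2, h3⟩ := hw
    have h4 := htriple w
    have e1 : gr m S w [] = 0 := h1
    have e2 : gr m S (x ++ w) [] = 0 := h2
    have e3 : gr m S (x ++ x ++ w) [] = 0 := h3
    rw [List.append_assoc] at e3
    rw [e1, e2, e3] at h4
    norm_num at h4
  have a0 : m.d W ≤ 1 / 3 := by have := hWd []; rwa [q_nil] at this
  have a1 := hWd x
  have a2 := hWd (x ++ x)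
  have b1 := m.union_add_inter W (q x W ∪ q (x ++ x) W)
  rw [hcover, m.univ] at b1
  have b2 := m.union_le (q x W) (q (x ++ x) W)
  have b3 : m.d (W ∩ (q x W ∪ q (x ++ x) W)) = 0 :=
    le_antisymm (by linarith) (m.nonneg _)
  have hYW : Y m S ⊆ W := fun y hy => hy.2
  have b4 : m.d (Y m S ∩ (q x W ∪ q (x ++ x) W)) = 0 :=
    m.null_mono (C := W ∩ (q x W ∪ q (x ++ x) W)) (fun z hz => ⟨hYW hz.1, hz.2⟩) b3
  obtain ⟨y, hy, hyn⟩ := m.exists_mem_not_mem hY b4
  simp only [Set.mem_union, not_or, mem_q, hW, Set.mem_compl_iff, not_not] at hyn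
  have e2 : gr m S (x ++ y) [] = 0 := hyn.1
  have e3 : gr m S (x ++ x ++ y) [] = 0 := hyn.2
  rw [List.append_assoc] at e3
  have h4 := htriple y
  rw [e2, e3, add_zero, add_zero] at h4
  have h5 : Eqv m S y [] := h4
  have h6 : Eqv m S (y ++ y) [] := E.eqv_trans (by simpa using E.eqv_right h5 y) h5
  exact Ext.gr_one_third_ne (E.perp_mul hy.1 hy.1) h6

/-- First Kneser type inequality. -/
theorem alpha_ineq (E : Ext m S) (hX : 0 < m.d (X m S)) {v : List α} (hv : v ∈ EE S)
    (w : List α) : 2 / 3 - m.d (V m S) ≤ gr m S (v ++ w) w := by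
  obtain ⟨a, ha, hav⟩ := hv
  have h1 : q (v ++ w) S ∪ q w S ⊆ q (a ++ v ++ w) (V m S) := by
    rintro z (hz | hz)
    · have := E.perp_mul ha (show v ++ w ++ z ∈ S from hz)
      show Perp m S (a ++ v ++ w ++ z) []
      simpa only [List.append_assoc] using this
    · have := E.perp_mul hav (show w ++ z ∈ S from hz)
      show Perp m S (a ++ v ++ w ++ z) []
      simpa only [List.append_assoc] using this
  have h2 := m.mono h1
  rw [V_const E hX] at h2
  have h3 := m.union_add_inter (q (v ++ w) S) (q w S)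
  rw [E.eq, E.eq] at h3
  unfold gr
  linarith

theorem EE_not_V (E : Ext m S) (hY : 0 < m.d (Y m S)) {v : List α} (hv : v ∈ EE S) :
    v ∉ V m S := by
  intro h
  have h1 := alpha_ineq E (E.X_pos hY) hv []
  have h2 := nu_lt E hY
  have h3 : gr m S v [] = 0 := h
  rw [List.append_nil, h3] at h1
  linarith

/-- Second Kneser type inequality. -/
theorem beta_ineq (E : Ext m S) (hY : 0 < m.d (Y m S)) {a b : List α} (ha : a ∈ S)
    (hb : b ∈ S) (u : List α) : m.d (V m S) - 1 / 3 ≤ gr m S (a ++ u) (b ++ u) := by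
  have hX := E.X_pos hY
  have h1 : q (a ++ u) S ∪ q (b ++ u) S ⊆ (q u (V m S))ᶜ := by
    rintro z (hz | hz)
    · refine EE_not_V E hY (mem_EE_of ha ?_)
      have : a ++ u ++ z ∈ S := hz
      rwa [List.append_assoc] at this
    · refine EE_not_V E hY (mem_EE_of hb ?_)
      have : b ++ u ++ z ∈ S := hz
      rwa [List.append_assoc] at this
  have h2 := m.mono h1
  rw [m.compl, V_const E hX] at h2
  have h3 := m.union_add_inter (q (a ++ u) S) (q (b ++ u) S)
  rw [E.eq, E.eq] at h3
  unfold gr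
  linarith

/-- Equality in both inequalities. -/
theorem gamma_eq (E : Ext m S) (hY : 0 < m.d (Y m S)) {y x : List α} (hy : y ∈ S)
    (hyE : y ∈ EE S) (hx : x ∈ X m S) (w : List α) :
    gr m S (y ++ w) w = 2 / 3 - m.d (V m S) ∧
      gr m S (y ++ w) (x ++ w) = m.d (V m S) - 1 / 3 := by
  have h1 := alpha_ineq E (E.X_pos hY) hyE w
  have h2 := beta_ineq E hY hy hx.1 w
  have h3 : gr m S (y ++ w) w + gr m S (y ++ w) (x ++ w) ≤ 1 / 3 := by
    have h4 := m.union_add_inter (q (y ++ w) S ∩ q w S) (q (y ++ w) S ∩ q (x ++ w) S)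
    have h5 : m.d ((q (y ++ w) S ∩ q w S) ∩ (q (y ++ w) S ∩ q (x ++ w) S)) = 0 := by
      refine m.null_mono (C := q (x ++ w) S ∩ q w S) (fun z hz => ⟨hz.2.2, hz.1.2⟩) ?_
      have : Perp m S (x ++ w) w := by simpa using hx.2.right w
      exact this
    have h6 : m.d ((q (y ++ w) S ∩ q w S) ∪ (q (y ++ w) S ∩ q (x ++ w) S)) ≤
        m.d (q (y ++ w) S) := m.mono (by
      rintro z (hz | hz)
      · exact hz.1
      · exact hz.1)
    rw [E.eq] at h6
    unfold gr
    linarith
  constructor <;> linarith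

/-- `ν = 1/2`. -/
theorem nu_eq (E : Ext m S) (hY : 0 < m.d (Y m S)) : m.d (V m S) = 1 / 2 := by
  obtain ⟨y₀, hy₀⟩ := m.exists_mem_of_pos hY
  have h0 : 0 < m.d (q y₀ S ∩ S) := lt_of_le_of_ne (m.nonneg _) (Ne.symm hy₀.2)
  obtain ⟨y, hy⟩ := m.exists_mem_of_pos h0
  have hyS : y ∈ S := hy.2
  have hyE : y ∈ EE S := mem_EE_of hy₀.1 hy.1
  have hyV := EE_not_V E hY hyE
  have h1 : 0 < m.d (q y S ∩ S) := lt_of_le_of_ne (m.nonneg _) (Ne.symm hyV)
  obtain ⟨s, hs⟩ := m.exists_mem_of_pos h1
  have hsS : s ∈ S := hs.2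
  have hsE : s ∈ EE S := mem_EE_of hyS hs.1
  have he : y ++ s ∈ X m S := E.mem_X hyS hsS hs.1
  have h2 := (gamma_eq E hY hyS hyE he s).1
  have h3 := (gamma_eq E hY hsS hsE he []).2
  rw [List.append_nil, List.append_nil, gr_comm] at h3
  linarith

end Pool.Agent.Lib.MP_48149e
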