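import Mathlib

/-!
Definitions for problem `MP_48149e_co` (3-product-free sets of words).

Words over the finite alphabet `α` are lists `List α`; concatenation is `++`.
-/

open Filter

namespace Pool.Agent.Lib.MP_48149e

/-- `S` is 3-product-free: `x y z ∉ S` for all `x, y, z ∈ S` (not necessarily distinct). -/
def ThreeProductFree {α : Type*} (S : Set (List α)) : Prop :=
  ∀ x ∈ S, ∀ y ∈ S, ∀ z ∈ S, x ++ y ++ z ∉ S

/-- `μ(B(n))`: the total weight `|α|^(-n) * #{w ∈ B : |w| = n}` of the words of length `n`
in `B`, where every word `w` has weight `|α|^(-|w|)`. -/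
noncomputable def level {α : Type*} [Fintype α] (B : Set (List α)) (n : ℕ) : ℝ :=
  (Set.ncard {w : List α | w ∈ B ∧ w.length = n} : ℝ) / (Fintype.card α : ℝ) ^ n

/-- `d^I(B)` for the interval `I = {a, a + 1, ..., a + L - 1}`: the average of `μ(B(n))` over
`n ∈ I`. -/
noncomputable def intervalDensity {α : Type*} [Fintype α] (B : Set (List α)) (a L : ℕ) : ℝ :=
  (∑ n ∈ Finset.Ico a (a + L), level B n) / (L : ℝ)

/-- The upper Banach density `d^*(B)`: the limit superior of `d^I(B)` over intervals
`I = [a, a + L)` with `a → ∞` and `L → ∞`. -/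
noncomputable def upperBanachDensity {α : Type*} [Fintype α] (B : Set (List α)) : ℝ :=
  limsup (fun p : ℕ × ℕ => intervalDensity B p.1 p.2) (atTop ×ˢ atTop)

/-- The label of the word `w` under a labelling `lab` of the alphabet by `ZMod m`: the sum of
the labels of its letters. -/
def label {α : Type*} {m : ℕ} (lab : α → ZMod m) (w : List α) : ZMod m :=
  (w.map lab).sum

end Pool.Agent.Lib.MP_48149e
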