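import Pool.Agent.Lib.MP_48149e.States

/-!
From `N` states to a homomorphism to `ZMod N`.
-/

set_option linter.unusedSectionVars false
set_option linter.unusedVariables false

namespace Pool.Agent.Lib.MP_48149e

variable {α : Type*} [Fintype α] [Nonempty α] {m : Mean α} {S : Set (List α)}

theorem Mean.sum_eq {ι : Type*} (m : Mean α) (s : Finset ι) (P : ι → Set (List α))
    (h : ∀ i ∈ s, ∀ j ∈ s, i ≠ j → Disjoint (P i) (P j)) :
    m.d (⋃ i ∈ s, P i) = ∑ i ∈ s, m.d (P i) := by
  classical
  induction s using Finset.induction_on with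
  | empty => simp [m.empty]
  | insert a s ha ih =>
    rw [Finset.set_biUnion_insert, Finset.sum_insert ha, m.union, ih]
    · intro i hi j hj hij
      exact h i (Finset.mem_insert_of_mem hi) j (Finset.mem_insert_of_mem hj) hij
    · rw [Set.disjoint_iUnion₂_right]
      intro i hi
      exact h a (Finset.mem_insert_self _ _) i (Finset.mem_insert_of_mem hi)
        (fun h => ha (h ▸ hi))

theorem Mean.sum_le_one {ι : Type*} (m : Mean α) (s : Finset ι) (P : ι → Set (List α))
    (h : ∀ i ∈ s, ∀ j ∈ s, i ≠ j → Disjoint (P i) (P j)) :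
    ∑ i ∈ s, m.d (P i) ≤ 1 := by
  rw [← m.sum_eq s P h]; exact m.le_one _

theorem final (E : Ext m S) (hX : 0 < m.d (X m S)) {N : ℕ} [NeZero N] (Z : Set (List α))
    (hZ : ∀ u, 1 / (N : ℝ) ≤ m.d (q u Z)) (c : ZMod N → List α) (hc0 : c 0 = [])
    (hstep : ∀ k, ∀ z ∈ Z, Eqv m S (c k ++ z) (c (k + 1)))
    (hne : ∀ k, Eqv m S (c k) [] → k = 0) :
    ∃ lab : α → ZMod N, (∀ w, Eqv m S w (c (label lab w))) ∧ ∀ z ∈ Z, label lab z = 1 := by
  classical
  have hN : (0 : ℝ) < N := by exact_mod_cast Nat.pos_of_ne_zero (NeZero.ne N)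
  have hNi : (0 : ℝ) < 1 / (N : ℝ) := by positivity
  have hq : ∀ u, ∃ w, u ++ w ∈ Z := fun u => m.exists_mem_of_pos (hNi.trans_le (hZ u))
  obtain ⟨z₀, hz₀⟩ := hq []
  rw [List.nil_append] at hz₀
  -- the states are distinct
  have hshift : ∀ n : ℕ, ∀ j k, Eqv m S (c j) (c k) → Eqv m S (c (j + n)) (c (k + n)) := by
    intro n
    induction n with
    | zero => intro j k h; simpa using h
    | succ n ih =>
      intro j k h
      have h1 := E.eqv_right (ih j k h) z₀
      have h2 := E.eqv_trans (E.eqv_trans (hstep (j + n) z₀ hz₀).symm h1)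
        (hstep (k + n) z₀ hz₀)
      push_cast
      rw [← add_assoc, ← add_assoc]
      exact h2
  have hinj : ∀ j k, Eqv m S (c j) (c k) → j = k := by
    intro j k h
    have h1 := hshift (-j).val j k h
    rw [ZMod.natCast_zmod_val, add_neg_cancel, hc0] at h1
    have h2 := hne _ h1.symm
    have h3 : k - j = 0 := by rw [sub_eq_add_neg]; exact h2
    exact (sub_eq_zero.1 h3).symm
  -- the classes
  set P : ZMod N → Set (List α) := fun k => {w | Eqv m S w (c k)} with hP
  have hPc : ∀ k u, m.d (q u (P k)) = m.d (P k) := by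
    intro k u
    refine sd_const E hX (fun u hu => ?_) u
    congr 1
    ext w
    have h1 : Eqv m S (u ++ w) w := by simpa using E.eqv_right hu w
    exact ⟨fun h => E.eqv_trans h1.symm h, fun h => E.eqv_trans h1 h⟩
  have hPpos : ∀ k, 1 / (N : ℝ) ≤ m.d (P k) := by
    intro k
    rw [← hPc k (c (k - 1))]
    refine (hZ []).trans (m.mono fun z hz => ?_)
    have := hstep (k - 1) z hz
    rw [sub_add_cancel] at this
    exact this
  have hdisj : ∀ i j, i ≠ j → Disjoint (P i) (P j) := by
    intro i j hij
    rw [Set.disjoint_left]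
    intro w h1 h2
    exact hij (hinj _ _ (E.eqv_trans h1.symm h2))
  have hsumP : (1 : ℝ) ≤ ∑ k : ZMod N, m.d (P k) := by
    calc (1 : ℝ) = ∑ _k : ZMod N, 1 / (N : ℝ) := by
          rw [Finset.sum_const, Finset.card_univ, ZMod.card, nsmul_eq_mul]
          field_simp
      _ ≤ _ := Finset.sum_le_sum fun k _ => hPpos k
  -- closure under letters
  have hletter : ∀ k, ∀ a : α, ∃ j, Eqv m S (c k ++ [a]) (c j) := by
    intro k a
    by_contra hno
    push Not at hno
    set C : Set (List α) := {v | Eqv m S v (c k ++ [a])} with hC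
    have h1 : m.d C + ∑ k : ZMod N, m.d (P k) ≤ 1 := by
      have h2 := m.sum_le_one (Finset.univ : Finset (Option (ZMod N)))
        (fun o => o.elim C P) (by
          rintro (_ | i) - (_ | j) - hij
          · exact absurd rfl hij
          · rw [Set.disjoint_left]
            intro w h1 h2
            exact hno j (E.eqv_trans h1.symm h2)
          · rw [Set.disjoint_left]
            intro w h1 h2
            exact hno i (E.eqv_trans h2.symm h1)
          · exact hdisj i j (fun h => hij (by rw [h])))
      rw [Fintype.sum_option] at h2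
      exact h2
    have h3 : m.d (P k) / Fintype.card α ≤ m.d C := by
      rw [← m.right (P k) a]
      apply m.mono
      rintro _ ⟨v, hv, rfl⟩
      exact E.eqv_right hv [a]
    have h4 : 0 < m.d (P k) / Fintype.card α := div_pos (hNi.trans_le (hPpos k)) card_pos
    linarith
  have hall : ∀ w : List α, ∃ k, Eqv m S w (c k) := by
    intro w
    induction w using List.reverseRecOn with
    | nil => exact ⟨0, by rw [hc0]; exact E.eqv_refl _⟩
    | append_singleton w a ih =>
      obtain ⟨k, hk⟩ := ih
      obtain ⟨j, hj⟩ := hletter k a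
      exact ⟨j, E.eqv_trans (E.eqv_right hk [a]) hj⟩
  choose l hl using hall
  have hluniq : ∀ {u v}, Eqv m S u v → l u = l v := fun {u v} h =>
    hinj _ _ (E.eqv_trans (E.eqv_trans (hl u).symm h) (hl v))
  have hlc : ∀ k, l (c k) = k := fun k => (hinj _ _ (hl (c k))).symm
  -- the action
  set π : List α → ZMod N → ZMod N := fun v k => l (c k ++ v) with hπ
  have hact : ∀ u v, l (u ++ v) = π v (l u) := fun u v => hluniq (E.eqv_right (hl u) v)
  have hπz : ∀ z ∈ Z, ∀ k, π z k = k + 1 := fun z hz k => by
    show l (c k ++ z) = k + 1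
    rw [hluniq (hstep k z hz), hlc]
  have hπmul : ∀ v w k, π (v ++ w) k = π w (π v k) := fun v w k => by
    show l (c k ++ (v ++ w)) = π w (l (c k ++ v))
    rw [← hact, List.append_assoc]
  have hπinj : ∀ v, Function.Injective (π v) := by
    intro v i j hij
    obtain ⟨w, hw⟩ := hq v
    have h1 := hπz _ hw i
    have h2 := hπz _ hw j
    rw [hπmul] at h1 h2
    rw [hij] at h1
    exact add_right_cancel (h1.symm.trans h2)
  set K : List α → Set (List α) := fun v => {w | ∀ k, π w (π v k) = k + 1} with hK
  have hKd : ∀ v, 1 / (N : ℝ) ≤ m.d (K v) := fun v =>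
    (hZ v).trans (m.mono fun w hw k => by
      have := hπz _ hw k
      rwa [hπmul] at this)
  have hKdisj : ∀ v v', π v ≠ π v' → Disjoint (K v) (K v') := by
    intro v v' hne
    rw [Set.disjoint_left]
    intro w h1 h2
    exact hne (funext fun k => hπinj w ((h1 k).trans (h2 k).symm))
  have hrot' : ∀ n : ℕ, ∃ v, ∀ k, π v k = k + (n : ZMod N) := by
    intro n
    induction n with
    | zero =>
      refine ⟨[], fun k => ?_⟩
      show l (c k ++ []) = _
      rw [List.append_nil, hlc]; simp
    | succ n ih =>
      obtain ⟨v, hv⟩ := ih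
      refine ⟨v ++ z₀, fun k => ?_⟩
      rw [hπmul, hv, hπz z₀ hz₀]
      push_cast
      ring
  have hrot : ∀ i : ZMod N, ∃ v, ∀ k, π v k = k + i := by
    intro i
    obtain ⟨v, hv⟩ := hrot' i.val
    refine ⟨v, fun k => ?_⟩
    rw [hv, ZMod.natCast_zmod_val]
  choose r hr using hrot
  have htrans : ∀ v k, π v k = k + l v := by
    intro v
    by_contra hcon
    have hne : ∀ i, π v ≠ π (r i) := by
      intro i h
      apply hcon
      intro k
      have h1 : ∀ k, π v k = k + i := fun k => by rw [h, hr]
      have h2 := h1 0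
      have h3 : π v 0 = l v := by show l (c 0 ++ v) = l v; rw [hc0, List.nil_append]
      rw [h3, zero_add] at h2
      rw [h1, h2]
    have h2 := m.sum_le_one (Finset.univ : Finset (Option (ZMod N)))
      (fun o => o.elim (K v) (fun i => K (r i))) (by
        rintro (_ | i) - (_ | j) - hij
        · exact absurd rfl hij
        · exact hKdisj _ _ (hne j)
        · exact hKdisj _ _ (hne i).symm
        · refine hKdisj _ _ fun h => hij ?_
          have h5 := congrFun h 0
          rw [hr, hr, zero_add, zero_add] at h5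
          rw [h5])
    rw [Fintype.sum_option] at h2
    have h3 : (1 : ℝ) ≤ ∑ i : ZMod N, m.d (K (r i)) := by
      calc (1 : ℝ) = ∑ _k : ZMod N, 1 / (N : ℝ) := by
            rw [Finset.sum_const, Finset.card_univ, ZMod.card, nsmul_eq_mul]
            field_simp
        _ ≤ _ := Finset.sum_le_sum fun k _ => hKd _
    have h4 : m.d (K v) + ∑ i : ZMod N, m.d (K (r i)) ≤ 1 := h2
    have h5 := hKd v
    linarith
  have hadd : ∀ u v, l (u ++ v) = l u + l v := fun u v => by rw [hact, htrans]
  have hlnil : l [] = 0 := by rw [← hc0]; exact hlc 0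
  have hlab : ∀ w, label (fun a => l [a]) w = l w := by
    intro w
    induction w with
    | nil => simp [label, hlnil]
    | cons a w ih =>
      have h1 := hadd [a] w
      rw [List.singleton_append] at h1
      rw [h1, ← ih]
      simp [label]
  refine ⟨fun a => l [a], fun w => ?_, fun z hz => ?_⟩
  · rw [hlab]; exact hl w
  · rw [hlab]
    have h1 := hπz z hz 0
    have h2 := htrans z 0
    rw [h1] at h2
    simpa using h2.symm

end Pool.Agent.Lib.MP_48149e
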