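import Pool.Agent.Lib.MP_48149e.Mean

/-!
Finitely additive calculus for invariant means on words, and the maximum principle for
harmonic functions on the tree of words.
-/

namespace Pool.Agent.Lib.MP_48149e

variable {α : Type*} [Fintype α]

namespace Mean

variable (m : Mean α)

theorem empty : m.d ∅ = 0 := by
  have := m.union ∅ ∅ (Set.disjoint_empty _)
  rw [Set.union_empty] at this
  linarith

theorem inter_add_diff (B C : Set (List α)) : m.d (B ∩ C) + m.d (B \ C) = m.d B := by
  rw [← m.union _ _ (Set.disjoint_sdiff_right.mono_left Set.inter_subset_right),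
    Set.inter_union_sdiff]

theorem mono {B C : Set (List α)} (h : B ⊆ C) : m.d B ≤ m.d C := by
  have h1 := m.inter_add_diff C B
  rw [Set.inter_eq_self_of_subset_right h] at h1
  have := m.nonneg (C \ B)
  linarith

theorem le_one (B : Set (List α)) : m.d B ≤ 1 := by
  rw [← m.univ]; exact m.mono (Set.subset_univ _)

theorem union_add_inter (B C : Set (List α)) :
    m.d (B ∪ C) + m.d (B ∩ C) = m.d B + m.d C := by
  have h1 : B ∪ C = B ∪ (C \ B) := by rw [Set.union_sdiff_self]
  have h2 := m.union B (C \ B) Set.disjoint_sdiff_right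
  have h3 := m.inter_add_diff C B
  rw [h1, h2, Set.inter_comm B C]
  linarith

theorem union_le (B C : Set (List α)) : m.d (B ∪ C) ≤ m.d B + m.d C := by
  have := m.union_add_inter B C
  have := m.nonneg (B ∩ C)
  linarith

theorem compl (B : Set (List α)) : m.d Bᶜ = 1 - m.d B := by
  have h := m.union B Bᶜ disjoint_compl_right
  rw [Set.union_compl_self, m.univ] at h
  linarith

theorem null_mono {B C : Set (List α)} (h : B ⊆ C) (hC : m.d C = 0) : m.d B = 0 :=
  le_antisymm (hC ▸ m.mono h) (m.nonneg _)

theorem null_union {B C : Set (List α)} (hB : m.d B = 0) (hC : m.d C = 0) :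
    m.d (B ∪ C) = 0 :=
  le_antisymm (by have := m.union_le B C; linarith) (m.nonneg _)

/-- If `B \ C` is null then `d B ≤ d C`. -/
theorem le_of_null_diff {B C : Set (List α)} (h : m.d (B \ C) = 0) : m.d B ≤ m.d C := by
  have h1 := m.inter_add_diff B C
  have h2 := m.mono (Set.inter_subset_right : B ∩ C ⊆ C)
  linarith

theorem exists_mem_of_pos {B : Set (List α)} (h : 0 < m.d B) : B.Nonempty := by
  rw [Set.nonempty_iff_ne_empty]
  rintro rfl
  rw [m.empty] at h
  exact lt_irrefl _ h

/-- A set of positive measure is not contained in a null set. -/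
theorem exists_mem_not_mem {B C : Set (List α)} (h : 0 < m.d B) (hC : m.d (B ∩ C) = 0) :
    ∃ w ∈ B, w ∉ C := by
  have h1 := m.inter_add_diff B C
  have h2 : 0 < m.d (B \ C) := by linarith
  obtain ⟨w, hw⟩ := m.exists_mem_of_pos h2
  exact ⟨w, hw.1, hw.2⟩

end Mean

/-- Harmonic functions on the tree of words. -/
def Harm (φ : List α → ℝ) : Prop := ∀ u, φ u = (∑ a : α, φ (u ++ [a])) / Fintype.card α

theorem Harm.shift {φ : List α → ℝ} (h : Harm φ) (v : List α) :
    Harm fun w => φ (v ++ w) := by
  intro u
  have := h (v ++ u)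
  simpa only [List.append_assoc] using this

variable [Nonempty α]

theorem card_pos : (0 : ℝ) < Fintype.card α := by exact_mod_cast Fintype.card_pos

theorem Harm.const_sub {φ : List α → ℝ} (h : Harm φ) (c : ℝ) : Harm fun w => c - φ w := by
  intro u
  have h1 := h u
  have h2 := card_pos (α := α)
  rw [Finset.sum_sub_distrib, Finset.sum_const, Finset.card_univ, nsmul_eq_mul, sub_div,
    ← h1, mul_div_cancel_left₀ _ h2.ne']

theorem Harm.sub_const {φ : List α → ℝ} (h : Harm φ) (c : ℝ) : Harm fun w => φ w - c := by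
  intro u
  have h1 := h u
  have h2 := card_pos (α := α)
  rw [Finset.sum_sub_distrib, Finset.sum_const, Finset.card_univ, nsmul_eq_mul, sub_div,
    ← h1, mul_div_cancel_left₀ _ h2.ne']

omit [Nonempty α] in
theorem harm_mean (m : Mean α) (B : Set (List α)) : Harm fun u => m.d (q u B) := by
  intro u
  have := m.left (q u B)
  simpa only [q_q] using this

/-- Averaging at level `n`. -/
theorem Harm.level_le {φ : List α → ℝ} (h : Harm φ) {c C : ℝ} (hc : ∀ w, c ≤ φ w)
    (n : ℕ) : ∀ (u : List α) (B : Set (List α)), (∀ w ∈ B, C ≤ φ (u ++ w)) →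
      c + (C - c) * level B n ≤ φ u := by
  classical
  induction n with
  | zero =>
    intro u B hB
    rw [level_zero]
    split_ifs with h0
    · have := hB [] h0
      rw [List.append_nil] at this
      linarith
    · have := hc u
      linarith
  | succ n ih =>
    intro u B hB
    have h1 : ∀ a : α, c + (C - c) * level (q [a] B) n ≤ φ (u ++ [a]) := by
      intro a
      refine ih (u ++ [a]) (q [a] B) fun w hw => ?_
      rw [List.append_assoc]
      exact hB _ hw
    rw [h u, level_succ, le_div_iff₀ card_pos]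
    calc (c + (C - c) * ((∑ a : α, level (q [a] B) n) / Fintype.card α)) * Fintype.card α
        = ∑ a : α, (c + (C - c) * level (q [a] B) n) := by
          rw [Finset.sum_add_distrib, ← Finset.mul_sum, Finset.sum_const, Finset.card_univ,
            nsmul_eq_mul]
          have := (card_pos (α := α)).ne'
          field_simp
      _ ≤ ∑ a : α, φ (u ++ [a]) := Finset.sum_le_sum fun a _ => h1 a

/-- **Maximum principle.** If the harmonic function `φ` is at least `c` everywhere and at least
`C` at all `u w` with `w ∈ B`, then `φ u ≥ c + (C - c) d(B)`. -/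
theorem Harm.mean_le (m : Mean α) {φ : List α → ℝ} (h : Harm φ) {c C : ℝ} (hc : ∀ w, c ≤ φ w)
    (hC : c ≤ C) (u : List α) (B : Set (List α)) (hB : ∀ w ∈ B, C ≤ φ (u ++ w)) :
    c + (C - c) * m.d B ≤ φ u := by
  rcases hC.eq_or_lt with rfl | hlt
  · have := hc u
    linarith
  · have h1 : ∀ n, level B n ≤ (φ u - c) / (C - c) := by
      intro n
      rw [le_div_iff₀ (by linarith)]
      have := h.level_le hc n u B hB
      linarith
    have h2 := m.sup B _ h1
    rw [le_div_iff₀ (by linarith)] at h2
    linarith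

/-- A nonnegative harmonic function is bounded below by its value at a descendant, up to the
weight. -/
theorem Harm.harnack {φ : List α → ℝ} (h : Harm φ) (h0 : ∀ w, 0 ≤ φ w) (u w : List α) :
    φ (u ++ w) ≤ (Fintype.card α : ℝ) ^ w.length * φ u := by
  induction w using List.reverseRecOn with
  | nil => simp
  | append_singleton w a ih =>
    have h1 := h (u ++ w)
    have h2 : φ (u ++ w ++ [a]) ≤ ∑ b : α, φ (u ++ w ++ [b]) :=
      Finset.single_le_sum (f := fun b : α => φ (u ++ w ++ [b])) (fun b _ => h0 _)
        (Finset.mem_univ a)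
    have h3 : ∑ b : α, φ (u ++ w ++ [b]) = Fintype.card α * φ (u ++ w) := by
      rw [h1]
      have := (card_pos (α := α)).ne'
      field_simp
    rw [List.length_append, List.length_singleton, pow_succ]
    rw [← List.append_assoc]
    calc φ (u ++ w ++ [a]) ≤ Fintype.card α * φ (u ++ w) := h2.trans h3.le
      _ ≤ Fintype.card α * ((Fintype.card α : ℝ) ^ w.length * φ u) := by
          have := (card_pos (α := α)).le
          gcongr
      _ = _ := by ring

/-- A nonnegative harmonic function which vanishes at `u` vanishes at all descendants. -/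
theorem Harm.zero_of_zero {φ : List α → ℝ} (h : Harm φ) (h0 : ∀ w, 0 ≤ φ w) {u : List α}
    (hu : φ u = 0) (w : List α) : φ (u ++ w) = 0 := by
  have := h.harnack h0 u w
  rw [hu, mul_zero] at this
  exact le_antisymm this (h0 _)

/-- A recurrent set: uniformly positive mean in all cylinders. -/
def Recurrent (m : Mean α) (B : Set (List α)) : Prop := ∃ b : ℝ, 0 < b ∧ ∀ u, b ≤ m.d (q u B)

omit [Nonempty α] in
theorem Recurrent.mono {m : Mean α} {B C : Set (List α)} (h : Recurrent m B) (hBC : B ⊆ C) :
    Recurrent m C := by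
  obtain ⟨b, hb, h⟩ := h
  exact ⟨b, hb, fun u => (h u).trans (m.mono (q_mono hBC))⟩

/-- Maximum principle for recurrent sets. -/
theorem Harm.le_zero {m : Mean α} {ψ : List α → ℝ} (h : Harm ψ) {K : ℝ} (hK : ∀ w, ψ w ≤ K)
    {B : Set (List α)} (hB : Recurrent m B) (hψ : ∀ w ∈ B, ψ w ≤ 0) (u : List α) : ψ u ≤ 0 := by
  obtain ⟨b, hb, hBb⟩ := hB
  have hb1 : b ≤ 1 := (hBb []).trans (m.le_one _)
  set K' : ℝ := max K 0 with hK'
  have hK'0 : 0 ≤ K' := le_max_right _ _
  have step : ∀ n : ℕ, ∀ u, ψ u ≤ K' * (1 - b) ^ n := by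
    intro n
    induction n with
    | zero => intro u; rw [pow_zero, mul_one]; exact (hK u).trans (le_max_left _ _)
    | succ n ih =>
      intro u
      set L : ℝ := K' * (1 - b) ^ n with hL
      have hL0 : 0 ≤ L := mul_nonneg hK'0 (pow_nonneg (by linarith) _)
      have h1 := (h.const_sub L).mean_le m (c := 0) (C := L) (fun w => by
        have := ih w; show 0 ≤ L - ψ w; linarith) hL0 u (q u B) (fun w hw => by
        have := hψ _ hw
        show L ≤ L - ψ (u ++ w)
        linarith)
      have h2 : L * b ≤ L * m.d (q u B) := mul_le_mul_of_nonneg_left (hBb u) hL0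
      rw [pow_succ, ← mul_assoc, ← hL]
      have h3 : 0 + (L - 0) * m.d (q u B) ≤ L - ψ u := h1
      nlinarith
  have hlim : Filter.Tendsto (fun n : ℕ => K' * (1 - b) ^ n) Filter.atTop (nhds (K' * 0)) :=
    (tendsto_pow_atTop_nhds_zero_of_lt_one (by linarith) (by linarith)).const_mul K'
  rw [mul_zero] at hlim
  exact ge_of_tendsto' hlim fun n => step n u

/-- A bounded harmonic function which is constant on a recurrent set is constant. -/
theorem Harm.eq_const {m : Mean α} {φ : List α → ℝ} (h : Harm φ) {K₁ K₂ c : ℝ}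
    (hK₁ : ∀ w, K₁ ≤ φ w) (hK₂ : ∀ w, φ w ≤ K₂)
    {B : Set (List α)} (hB : Recurrent m B) (hφ : ∀ w ∈ B, φ w = c) (u : List α) : φ u = c := by
  apply le_antisymm
  · have := (h.sub_const c).le_zero (K := K₂ - c) (fun w => by
      have := hK₂ w; show φ w - c ≤ _; linarith) hB (fun w hw => by
      have := hφ w hw; show φ w - c ≤ 0; linarith) u
    linarith
  · have := (h.const_sub c).le_zero (K := c - K₁) (fun w => by
      have := hK₁ w; show c - φ w ≤ _; linarith) hB (fun w hw => by
      have := hφ w hw; show c - φ w ≤ 0; linarith) u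
    linarith

/-- Products of a recurrent set with a set of positive mean are recurrent. -/
theorem Recurrent.mul {m : Mean α} {B C D : Set (List α)} (hB : Recurrent m B)
    (hC : 0 < m.d C) (hD : ∀ b ∈ B, ∀ c ∈ C, b ++ c ∈ D) : Recurrent m D := by
  obtain ⟨b, hb, hBb⟩ := hB
  refine ⟨b * m.d C, mul_pos hb hC, fun u => ?_⟩
  have h1 : ∀ w ∈ B, m.d C ≤ m.d (q w D) := fun w hw => m.mono fun c hc => hD w hw c hc
  have h2 := (harm_mean m D).mean_le m (c := 0) (C := m.d C) (fun w => m.nonneg _)
    (m.nonneg _) u (q u B) (fun w hw => h1 _ hw)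
  have h3 : m.d C * b ≤ m.d C * m.d (q u B) := mul_le_mul_of_nonneg_left (hBb u) (m.nonneg _)
  have h4 : 0 + (m.d C - 0) * m.d (q u B) ≤ m.d (q u D) := h2
  linarith

/-- Null sets are null in all cylinders. -/
theorem Mean.null_q (m : Mean α) {B : Set (List α)} (h : m.d B = 0) (u : List α) :
    m.d (q u B) = 0 := by
  have := (harm_mean m B).zero_of_zero (fun w => m.nonneg _) (u := []) h u
  simpa using this

end Pool.Agent.Lib.MP_48149e
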