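import Pool.Agent.Lib.MP_48149e.Cases

/-!
The case of six states, and the main theorem.
-/

set_option linter.unusedSectionVars false
set_option linter.unusedVariables false

namespace Pool.Agent.Lib.MP_48149e

variable {α : Type*} [Fintype α] [Nonempty α] {m : Mean α} {S : Set (List α)}

theorem Mean.q_le_of_null_diff (m : Mean α) {B C : Set (List α)} (h : m.d (B \ C) = 0)
    (u : List α) : m.d (q u B) ≤ m.d (q u C) :=
  m.le_of_null_diff (by rw [← q_diff]; exact m.null_q h u)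

/-- The generating class. -/
def Y1 (S : Set (List α)) : Set (List α) := {y | y ∈ S ∧ y ∈ EE S}

theorem q_inter_sub_Y1 {y : List α} (hy : y ∈ S) : q y S ∩ S ⊆ Y1 S :=
  fun s hs => ⟨hs.2, mem_EE_of hy hs.1⟩

theorem gr_Y1 (E : Ext m S) (hY : 0 < m.d (Y m S)) {y : List α} (hy : y ∈ Y1 S) :
    gr m S y [] = 1 / 6 := by
  obtain ⟨x, hx⟩ := m.exists_mem_of_pos (E.X_pos hY)
  have h1 := (gamma_eq E hY hy.1 hy.2 hx []).1
  rw [List.append_nil, nu_eq E hY] at h1
  rw [h1]; norm_num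

theorem exists_Y1 (E : Ext m S) (hY : 0 < m.d (Y m S)) : ∃ y, y ∈ Y1 S := by
  obtain ⟨y₀, hy₀⟩ := m.exists_mem_of_pos hY
  have h0 : 0 < m.d (q y₀ S ∩ S) := lt_of_le_of_ne (m.nonneg _) (Ne.symm hy₀.2)
  obtain ⟨y, hy⟩ := m.exists_mem_of_pos h0
  exact ⟨y, q_inter_sub_Y1 hy₀.1 hy⟩

theorem densities (E : Ext m S) (hY : 0 < m.d (Y m S)) :
    m.d (X m S) = 1 / 6 ∧ m.d (Y m S) = 1 / 6 ∧ m.d (Y1 S) = 1 / 6 ∧
      m.d (Y m S \ Y1 S) = 0 := by
  obtain ⟨y, hy⟩ := exists_Y1 E hY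
  have hX := E.X_pos hY
  have h1 : m.d (q y S ∩ S) = 1 / 6 := gr_Y1 E hY hy
  have h2 : m.d (q y S ∩ S) ≤ m.d (q y (X m S)) :=
    m.mono fun s hs => E.mem_X hy.1 hs.2 hs.1
  rw [mean_X_const E hX, h1] at h2
  have h3 := m.mono (q_inter_sub_Y1 hy.1)
  rw [h1] at h3
  have h4 : Y1 S ⊆ Y m S := fun z hz => ⟨hz.1, EE_not_V E hY hz.2⟩
  have h5 := m.mono h4
  have h6 := E.X_add_Y []
  rw [q_nil, q_nil] at h6
  have h7 := m.inter_add_diff (Y m S) (Y1 S)
  rw [Set.inter_eq_self_of_subset_right h4] at h7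
  have h8 := m.nonneg (Y m S \ Y1 S)
  refine ⟨by linarith, by linarith, by linarith, by linarith⟩

theorem Y1_const (E : Ext m S) (hY : 0 < m.d (Y m S)) (u : List α) :
    1 / 6 ≤ m.d (q u (Y1 S)) := by
  obtain ⟨h1, h2, h3, h4⟩ := densities E hY
  have h5 := m.q_le_of_null_diff h4 u
  have h6 := E.X_add_Y u
  rw [mean_X_const E (E.X_pos hY), h1] at h6
  linarith

theorem Y1_null (E : Ext m S) (hY : 0 < m.d (Y m S)) {y : List α} (hy : y ∈ Y1 S) :
    m.d (Y1 S \ (q y S ∩ S)) = 0 := by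
  have h1 : m.d (q y S ∩ S) = 1 / 6 := gr_Y1 E hY hy
  have h7 := m.inter_add_diff (Y1 S) (q y S ∩ S)
  rw [Set.inter_eq_self_of_subset_right (q_inter_sub_Y1 hy.1), h1, (densities E hY).2.2.1] at h7
  linarith

/-- For `y, y' ∈ Y1`, recurrently `y z, y' z ∈ X`. -/
theorem recurrent_B (E : Ext m S) (hY : 0 < m.d (Y m S)) {y y' : List α} (hy : y ∈ Y1 S)
    (hy' : y' ∈ Y1 S) : Recurrent m {z | y ++ z ∈ X m S ∧ y' ++ z ∈ X m S} := by
  refine ⟨1 / 6, by norm_num, fun u => (Y1_const E hY u).trans (m.q_le_of_null_diff ?_ u)⟩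
  refine m.null_mono (C := (Y1 S \ (q y S ∩ S)) ∪ (Y1 S \ (q y' S ∩ S))) ?_
    (m.null_union (Y1_null E hY hy) (Y1_null E hY hy'))
  rintro z ⟨hz1, hz2⟩
  by_contra hcon
  simp only [Set.mem_union, not_or, Set.mem_sdiff, not_and, not_not] at hcon
  have a1 := hcon.1 hz1
  have a2 := hcon.2 hz1
  exact hz2 ⟨E.mem_X hy.1 a1.2 a1.1, E.mem_X hy'.1 a2.2 a2.1⟩

theorem y_eqv (E : Ext m S) (hY : 0 < m.d (Y m S)) {y y' : List α} (hy : y ∈ Y1 S)
    (hy' : y' ∈ Y1 S) : Eqv m S y y' :=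
  E.eqv_of_recurrent (recurrent_B E hY hy hy') fun z hz => E.x_eqv (E.X_pos hY) hz.1 hz.2

theorem xy_eqv (E : Ext m S) (hY : 0 < m.d (Y m S)) {x y y' : List α} (hx : x ∈ X m S)
    (hy : y ∈ Y1 S) (hy' : y' ∈ Y1 S) : Eqv m S (x ++ y) (x ++ y') :=
  E.eqv_of_recurrent (recurrent_B E hY hy hy') fun z hz => by
    rw [List.append_assoc, List.append_assoc]
    exact E.xx_eqv (E.X_pos hY) hx hz.1 hx hz.2

theorem xxy_eqv (E : Ext m S) (hY : 0 < m.d (Y m S)) {x x' y y' : List α} (hx : x ∈ X m S)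
    (hx' : x' ∈ X m S) (hy : y ∈ Y1 S) (hy' : y' ∈ Y1 S) :
    Eqv m S (x ++ (x' ++ y)) (x ++ (x' ++ y')) :=
  E.eqv_of_recurrent (recurrent_B E hY hy hy') fun z hz => by
    have h1 := E.xxx hx hx' hz.1
    have h2 := E.xxx hx hx' hz.2
    simp only [List.append_assoc]
    exact E.eqv_trans h1 h2.symm

/-- The elements of `Y1` which are right factors of elements of `S` with left factor in
`Y1`. -/
def Y2 (S : Set (List α)) : Set (List α) := {z | z ∈ Y1 S ∧ ∃ p ∈ Y1 S, p ++ z ∈ S}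

theorem Y2_const (E : Ext m S) (hY : 0 < m.d (Y m S)) (u : List α) :
    1 / 6 ≤ m.d (q u (Y2 S)) := by
  obtain ⟨y, hy⟩ := exists_Y1 E hY
  refine (Y1_const E hY u).trans (m.q_le_of_null_diff ?_ u)
  refine m.null_mono (C := Y1 S \ (q y S ∩ S)) ?_ (Y1_null E hY hy)
  rintro z ⟨h1, h2⟩
  refine ⟨h1, fun h3 => h2 ⟨h1, y, hy, h3.1⟩⟩

theorem yz_eqv (E : Ext m S) (hY : 0 < m.d (Y m S)) {x y z : List α} (hx : x ∈ X m S)
    (hy : y ∈ Y1 S) (hz : z ∈ Y2 S) : Eqv m S (y ++ z) x := by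
  obtain ⟨hz1, p, hp, hpz⟩ := hz
  exact E.eqv_trans (E.eqv_right (y_eqv E hY hy hp) z)
    (E.x_eqv (E.X_pos hY) (E.mem_X hp.1 hz1.1 hpz) hx)

/-- Second case: six states. -/
theorem caseB (E : Ext m S) (hY : 0 < m.d (Y m S)) :
    ∃ lab : α → ZMod 6, ∀ w ∈ S, label lab w = 1 ∨ label lab w = 2 := by
  have hX := E.X_pos hY
  obtain ⟨x, hx⟩ := m.exists_mem_of_pos hX
  obtain ⟨y, hyZ⟩ : ∃ y, y ∈ Y2 S := m.exists_mem_of_pos (by
    have := Y2_const E hY []
    rw [q_nil] at this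
    linarith)
  have hy : y ∈ Y1 S := hyZ.1
  have g0 : gr m S [] [] = 1 / 3 := E.gr_self []
  have g1 : gr m S y [] = 1 / 6 := gr_Y1 E hY hy
  have g2 : gr m S x [] = 0 := hx.2
  have g3 : gr m S (x ++ y) [] = 0 := E.perp_mul hx.1 hy.1
  have g4 : gr m S (x ++ x) [] = 0 := E.perp_mul hx.1 hx.1
  have g5 : gr m S (x ++ (x ++ y)) [] = 1 / 6 := by
    have := E.triple hx hx y (q [] S)
    rw [E.eq] at this
    have h1 : gr m S y [] + gr m S (x ++ y) [] + gr m S (x ++ (x ++ y)) [] = 1 / 3 := this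
    rw [g1, g3] at h1
    linarith
  obtain ⟨lab, h1, h2⟩ := final E hX (N := 6) (Y2 S) (fun u => by
      have := Y2_const E hY u
      norm_num at this ⊢
      exact this) ![[], y, x, x ++ y, x ++ x, x ++ (x ++ y)] rfl (by
      intro k z hz
      have hz1 : z ∈ Y1 S := hz.1
      obtain ⟨p, hp, hpz⟩ := hz.2
      have hpzX : p ++ z ∈ X m S := E.mem_X hp.1 hz1.1 hpz
      change Fin 6 at k
      fin_cases k
      · show Eqv m S ([] ++ z) y
        exact y_eqv E hY hz1 hy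
      · show Eqv m S (y ++ z) x
        exact yz_eqv E hY hx hy hz
      · show Eqv m S (x ++ z) (x ++ y)
        exact xy_eqv E hY hx hz1 hy
      · show Eqv m S (x ++ y ++ z) (x ++ x)
        refine E.eqv_trans (E.eqv_right (xy_eqv E hY hx hy hp) z) ?_
        rw [List.append_assoc]
        exact E.xx_eqv hX hx hpzX hx hx
      · show Eqv m S (x ++ x ++ z) (x ++ (x ++ y))
        rw [List.append_assoc]
        exact xxy_eqv E hY hx hx hz1 hy
      · show Eqv m S (x ++ (x ++ y) ++ z) []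
        refine E.eqv_trans (E.eqv_right (xxy_eqv E hY hx hx hy hp) z) ?_
        simp only [List.append_assoc]
        exact E.xxx hx hx hpzX) (by
      intro k hk
      have aux : ∀ {u : List α} {t : ℝ}, gr m S u [] = t → t ≠ 1 / 3 → ¬ Eqv m S u [] := by
        intro u t hu ht h
        unfold Eqv at h
        exact ht (hu.symm.trans h)
      change Fin 6 at k
      fin_cases k
      · rfl
      · exact absurd (show Eqv m S y [] from hk) (aux g1 (by norm_num))
      · exact absurd (show Eqv m S x [] from hk) (aux g2 (by norm_num))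
      · exact absurd (show Eqv m S (x ++ y) [] from hk) (aux g3 (by norm_num))
      · exact absurd (show Eqv m S (x ++ x) [] from hk) (aux g4 (by norm_num))
      · exact absurd (show Eqv m S (x ++ (x ++ y)) [] from hk) (aux g5 (by norm_num)))
  refine ⟨lab, fun s hs => ?_⟩
  -- the labels of the words orthogonal to the empty word
  have h3 : ∀ w, Perp m S w [] → label lab w ≠ 0 ∧ label lab w ≠ 1 ∧ label lab w ≠ 5 := by
    intro w hw
    have h4 := E.gr_congr (h1 w) []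
    have hw' : gr m S w [] = 0 := hw
    rw [hw'] at h4
    refine ⟨fun h0 => ?_, fun h0 => ?_, fun h0 => ?_⟩
    · rw [h0] at h4
      have h5 : (0 : ℝ) = gr m S [] [] := h4
      rw [g0] at h5; norm_num at h5
    · rw [h0] at h4
      have h5 : (0 : ℝ) = gr m S y [] := h4
      rw [g1] at h5; norm_num at h5
    · rw [h0] at h4
      have h5 : (0 : ℝ) = gr m S (x ++ (x ++ y)) [] := h4
      rw [g5] at h5; norm_num at h5
  have h4 := h3 _ (E.perp_mul hs hs)
  have h5 := h3 _ (E.perp_mul hs hy.1)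
  rw [label_append] at h4 h5
  rw [h2 y hyZ] at h5
  revert h4 h5
  generalize label lab s = j
  revert j
  decide

/-- **Structure of extremal 3-product-free sets of words.** -/
theorem main (S : Set (List α)) (h3 : ThreeProductFree S) (hd : upperBanachDensity S = 1 / 3) :
    (∃ lab : α → ZMod 3, ∀ w ∈ S, label lab w = 1) ∨
      (∃ lab : α → ZMod 6, ∀ w ∈ S, label lab w = 1 ∨ label lab w = 2) := by
  obtain ⟨m, hm⟩ := exists_mean S
  have E : Ext m S := ⟨h3, quot_eq m h3 (hm.trans hd)⟩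
  rcases (m.nonneg (Y m S)).eq_or_lt with h0 | h0
  · exact Or.inl (caseA E h0.symm)
  · exact Or.inr (caseB E h0)

end Pool.Agent.Lib.MP_48149e
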