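import Pool.Agent.Lib.MP_48149e.Defs

/-!
Invariant means on sets of words, and harmonic functions on the tree of words.
-/

open Filter

namespace Pool.Agent.Lib.MP_48149e

variable {α : Type*}

/-- Left quotient: `q u B = {w | u w ∈ B}`. -/
def q (u : List α) (B : Set (List α)) : Set (List α) := {w | u ++ w ∈ B}

theorem mem_q {u w : List α} {B : Set (List α)} : w ∈ q u B ↔ u ++ w ∈ B := Iff.rfl

theorem q_nil (B : Set (List α)) : q [] B = B := rfl

theorem q_q (u v : List α) (B : Set (List α)) : q v (q u B) = q (u ++ v) B := by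
  ext w
  simp only [mem_q, List.append_assoc]

theorem q_inter (u : List α) (B C : Set (List α)) : q u (B ∩ C) = q u B ∩ q u C := rfl

theorem q_diff (u : List α) (B C : Set (List α)) : q u (B \ C) = q u B \ q u C := rfl

theorem q_union (u : List α) (B C : Set (List α)) : q u (B ∪ C) = q u B ∪ q u C := rfl

theorem q_compl (u : List α) (B : Set (List α)) : q u Bᶜ = (q u B)ᶜ := rfl

theorem q_mono {u : List α} {B C : Set (List α)} (h : B ⊆ C) : q u B ⊆ q u C :=
  fun _ hw => h hw

variable [Fintype α]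

theorem finite_level (B : Set (List α)) (n : ℕ) : {w : List α | w ∈ B ∧ w.length = n}.Finite :=
  (List.finite_length_eq α n).subset fun _ hw => hw.2

theorem level_nonneg (B : Set (List α)) (n : ℕ) : 0 ≤ level B n := by
  unfold level; positivity

theorem level_zero (B : Set (List α)) [Decidable ([] ∈ B)] :
    level B 0 = if [] ∈ B then 1 else 0 := by
  unfold level
  split_ifs with h
  · have : {w : List α | w ∈ B ∧ w.length = 0} = {[]} := by
      ext w
      simp only [Set.mem_ofPred_eq, List.length_eq_zero_iff, Set.mem_singleton_iff]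
      constructor
      · rintro ⟨_, h2⟩; exact h2
      · rintro rfl; exact ⟨h, rfl⟩
    rw [this]; simp
  · have : {w : List α | w ∈ B ∧ w.length = 0} = ∅ := by
      ext w
      simp only [Set.mem_ofPred_eq, List.length_eq_zero_iff, Set.mem_empty_iff_false, iff_false]
      rintro ⟨h1, rfl⟩; exact h h1
    rw [this]; simp

theorem level_succ [Nonempty α] (B : Set (List α)) (n : ℕ) :
    level B (n + 1) = (∑ a : α, level (q [a] B) n) / Fintype.card α := by
  classical
  have hfin : ∀ a : α, Finite {w : List α // w ∈ q [a] B ∧ w.length = n} := fun a =>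
    (finite_level (q [a] B) n).to_subtype
  have e : {w : List α // w ∈ B ∧ w.length = n + 1} ≃
      (Σ a : α, {w : List α // w ∈ q [a] B ∧ w.length = n}) :=
    { toFun := fun w => match w with
        | ⟨[], h⟩ => absurd h.2 (by simp)
        | ⟨a :: w, h⟩ => ⟨a, ⟨w, h.1, by simpa using h.2⟩⟩
      invFun := fun p => ⟨p.1 :: p.2.1, p.2.2.1, by simp [p.2.2.2]⟩
      left_inv := fun w => by
        match w with
        | ⟨[], h⟩ => exact absurd h.2 (by simp)
        | ⟨a :: w, h⟩ => rfl
      right_inv := fun p => rfl }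
  have h1 : Set.ncard {w : List α | w ∈ B ∧ w.length = n + 1} =
      ∑ a : α, Set.ncard {w : List α | w ∈ q [a] B ∧ w.length = n} := by
    have := Nat.card_congr e
    rw [Nat.card_sigma] at this
    exact this
  unfold level
  rw [h1, ← Finset.sum_div, div_div, pow_succ]
  push_cast
  rfl

theorem level_le_one [Nonempty α] (B : Set (List α)) (n : ℕ) : level B n ≤ 1 := by
  classical
  induction n generalizing B with
  | zero =>
    rw [level_zero]; split_ifs <;> norm_num
  | succ n ih =>
    rw [level_succ, div_le_one (by exact_mod_cast Fintype.card_pos)]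
    calc ∑ a : α, level (q [a] B) n ≤ ∑ _a : α, (1 : ℝ) := Finset.sum_le_sum fun a _ => ih _
      _ = Fintype.card α := by simp

theorem level_mono {B C : Set (List α)} (h : B ⊆ C) (n : ℕ) : level B n ≤ level C n := by
  unfold level
  have h1 : {w : List α | w ∈ B ∧ w.length = n} ⊆ {w : List α | w ∈ C ∧ w.length = n} :=
    fun w hw => ⟨h hw.1, hw.2⟩
  have h2 := Set.ncard_le_ncard h1 (finite_level C n)
  have h3 : (Set.ncard {w : List α | w ∈ B ∧ w.length = n} : ℝ) ≤
      Set.ncard {w : List α | w ∈ C ∧ w.length = n} := by exact_mod_cast h2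
  gcongr

theorem level_union {B C : Set (List α)} (h : Disjoint B C) (n : ℕ) :
    level (B ∪ C) n = level B n + level C n := by
  unfold level
  rw [← add_div]
  congr 1
  have : {w : List α | w ∈ B ∪ C ∧ w.length = n} =
      {w : List α | w ∈ B ∧ w.length = n} ∪ {w : List α | w ∈ C ∧ w.length = n} := by
    ext w
    simp only [Set.mem_union, Set.mem_ofPred_eq]
    tauto
  rw [this, Set.ncard_union_eq _ (finite_level B n) (finite_level C n)]
  · push_cast; rfl
  · rw [Set.disjoint_left] at h ⊢
    intro w hw hw'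
    exact h hw.1 hw'.1

theorem level_univ [Nonempty α] (n : ℕ) : level (Set.univ : Set (List α)) n = 1 := by
  classical
  induction n with
  | zero => rw [level_zero]; simp
  | succ n ih =>
    rw [level_succ]
    have : ∀ a : α, level (q [a] (Set.univ : Set (List α))) n = 1 := fun a => ih
    simp only [this]
    rw [Finset.sum_const, Finset.card_univ, nsmul_eq_mul, mul_one, div_self]
    exact_mod_cast Fintype.card_ne_zero

theorem level_right (B : Set (List α)) (a : α) (n : ℕ) :
    level {w | ∃ v ∈ B, w = v ++ [a]} (n + 1) = level B n / Fintype.card α := by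
  unfold level
  have h1 : {w : List α | w ∈ {w | ∃ v ∈ B, w = v ++ [a]} ∧ w.length = n + 1} =
      (fun v => v ++ [a]) '' {w : List α | w ∈ B ∧ w.length = n} := by
    ext w
    simp only [Set.mem_ofPred_eq, Set.mem_image]
    constructor
    · rintro ⟨⟨v, hv, rfl⟩, h⟩
      exact ⟨v, ⟨hv, by simpa using h⟩, rfl⟩
    · rintro ⟨v, ⟨hv, h⟩, rfl⟩
      exact ⟨⟨v, hv, rfl⟩, by simpa using h⟩
  rw [h1, Set.ncard_image_of_injective, div_div, pow_succ]
  intro u v huv
  exact List.append_cancel_right huv

theorem shift_sum {F G : ℕ → ℝ} (hG : ∀ n, G (n + 1) = F n) (a L : ℕ) :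
    (∑ n ∈ Finset.Ico (a + 1) (a + 1 + L), G n) - ∑ n ∈ Finset.Ico (a + 1) (a + 1 + L), F n =
      F a - F (a + L) := by
  induction L with
  | zero => simp
  | succ L ih =>
    rw [← add_assoc, Finset.sum_Ico_succ_top (by omega), Finset.sum_Ico_succ_top (by omega)]
    have h1 : G (a + 1 + L) = F (a + L) := by rw [← hG]; congr 1; omega
    have h2 : a + (L + 1) = a + 1 + L := by omega
    rw [h1, h2]
    linarith

theorem shift_avg {F G : ℕ → ℝ} (hG : ∀ n, G (n + 1) = F n) (h0 : ∀ n, 0 ≤ F n)
    (h1 : ∀ n, F n ≤ 1) {a L : ℕ} (ha : 1 ≤ a) :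
    |(∑ n ∈ Finset.Ico a (a + L), G n) / (L : ℝ) - (∑ n ∈ Finset.Ico a (a + L), F n) / (L : ℝ)| ≤
      2 / (L : ℝ) := by
  obtain ⟨b, rfl⟩ : ∃ b, a = b + 1 := ⟨a - 1, by omega⟩
  rw [← sub_div, shift_sum hG, abs_div, abs_of_nonneg (Nat.cast_nonneg L : (0:ℝ) ≤ (L:ℝ))]
  gcongr
  rw [abs_le]
  have := h0 b
  have := h1 b
  have := h0 (b + L)
  have := h1 (b + L)
  constructor <;> linarith

variable (α) in
/-- An invariant mean on the sets of words. -/
structure Mean where
  /-- the value of the mean -/
  d : Set (List α) → ℝ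
  nonneg : ∀ B, 0 ≤ d B
  univ : d Set.univ = 1
  union : ∀ B C, Disjoint B C → d (B ∪ C) = d B + d C
  left : ∀ B, d B = (∑ a : α, d (q [a] B)) / Fintype.card α
  right : ∀ B, ∀ a : α, d {w | ∃ v ∈ B, w = v ++ [a]} = d B / Fintype.card α
  sup : ∀ B, ∀ c : ℝ, (∀ n, level B n ≤ c) → d B ≤ c

/-- Existence of an invariant mean which gives `S` its upper Banach density. -/
theorem exists_mean [Nonempty α] (S : Set (List α)) :
    ∃ m : Mean α, m.d S = upperBanachDensity S := by
  classical
  -- bounds
  have hb0 : ∀ (B : Set (List α)) (a L : ℕ), 0 ≤ intervalDensity B a L := fun B a L => by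
    unfold intervalDensity
    exact div_nonneg (Finset.sum_nonneg fun n _ => level_nonneg B n) (Nat.cast_nonneg L)
  have hb1' : ∀ (B : Set (List α)) (c : ℝ), 0 ≤ c → (∀ n, level B n ≤ c) →
      ∀ (a L : ℕ), intervalDensity B a L ≤ c := fun B c hc h a L => by
    unfold intervalDensity
    rcases Nat.eq_zero_or_pos L with rfl | hL
    · simpa using hc
    · rw [div_le_iff₀ (by exact_mod_cast hL)]
      calc ∑ n ∈ Finset.Ico a (a + L), level B n ≤ ∑ _n ∈ Finset.Ico a (a + L), c :=
            Finset.sum_le_sum fun n _ => h n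
        _ = c * L := by rw [Finset.sum_const, Nat.card_Ico, nsmul_eq_mul]; simp [mul_comm]
  have hb1 : ∀ (B : Set (List α)) (a L : ℕ), intervalDensity B a L ≤ 1 := fun B a L =>
    hb1' B 1 zero_le_one (level_le_one B) a L
  -- a sequence of intervals realising the limsup
  set f : ℕ × ℕ → ℝ := fun p => intervalDensity S p.1 p.2 with hf
  have hbdd : IsBoundedUnder (· ≤ ·) (atTop ×ˢ atTop : Filter (ℕ × ℕ)) f :=
    isBoundedUnder_of ⟨1, fun p => hb1 S p.1 p.2⟩
  have hcobdd : IsCoboundedUnder (· ≤ ·) (atTop ×ˢ atTop : Filter (ℕ × ℕ)) f :=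
    (isBoundedUnder_of ⟨0, fun p => hb0 S p.1 p.2⟩ :
      IsBoundedUnder (· ≥ ·) (atTop ×ˢ atTop : Filter (ℕ × ℕ)) f).isCoboundedUnder_le
  have hfreq : ∀ k : ℕ, ∃ p : ℕ × ℕ, k + 1 ≤ p.1 ∧ k + 1 ≤ p.2 ∧
      |f p - upperBanachDensity S| ≤ 1 / (k + 1 : ℝ) := by
    intro k
    have hk : (0 : ℝ) < 1 / (k + 1 : ℝ) := by positivity
    have h1 : ∀ᶠ p in (atTop ×ˢ atTop : Filter (ℕ × ℕ)),
        f p < upperBanachDensity S + 1 / (k + 1 : ℝ) :=
      eventually_lt_of_limsup_lt (by
        show limsup f _ < _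
        have : limsup f (atTop ×ˢ atTop) = upperBanachDensity S := rfl
        rw [this]; linarith) hbdd
    have h2 : ∃ᶠ p in (atTop ×ˢ atTop : Filter (ℕ × ℕ)),
        upperBanachDensity S - 1 / (k + 1 : ℝ) < f p :=
      frequently_lt_of_lt_limsup hcobdd (by
        show _ < limsup f _
        have : limsup f (atTop ×ˢ atTop) = upperBanachDensity S := rfl
        rw [this]; linarith)
    have h3 : ∀ᶠ p in (atTop ×ˢ atTop : Filter (ℕ × ℕ)), k + 1 ≤ p.1 ∧ k + 1 ≤ p.2 :=
      (eventually_ge_atTop (k + 1)).prod_mk (eventually_ge_atTop (k + 1))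
    obtain ⟨p, hp2, hp1, hp3⟩ := (h2.and_eventually (h1.and h3)).exists
    refine ⟨p, hp3.1, hp3.2, ?_⟩
    rw [abs_le]
    constructor <;> linarith
  choose p hp1 hp2 hp3 using hfreq
  -- ultrafilter limit
  set U : Ultrafilter ℕ := hyperfilter ℕ with hU
  have hUtop : (U : Filter ℕ) ≤ atTop := by
    rw [← Nat.cofinite_eq_atTop]; exact hyperfilter_le_cofinite
  have hlim : ∀ B : Set (List α), ∃ x ∈ Set.Icc (0 : ℝ) 1,
      Tendsto (fun k => intervalDensity B (p k).1 (p k).2) U (nhds x) := by
    intro B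
    have hc : IsCompact (Set.Icc (0 : ℝ) 1) := isCompact_Icc
    have := hc.ultrafilter_le_nhds (U.map (fun k => intervalDensity B (p k).1 (p k).2)) (by
      rw [le_principal_iff, Ultrafilter.mem_coe, Ultrafilter.mem_map]
      exact Filter.univ_mem' fun k => ⟨hb0 _ _ _, hb1 _ _ _⟩)
    exact this
  choose D hD1 hD2 using hlim
  have hinv : Tendsto (fun k : ℕ => 2 / ((p k).2 : ℝ)) U (nhds 0) := by
    have h1 : Tendsto (fun k : ℕ => 2 * (1 / ((k : ℝ) + 1))) U (nhds 0) := by
      have := (tendsto_one_div_add_atTop_nhds_zero_nat (𝕜 := ℝ)).const_mul 2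
      rw [mul_zero] at this
      exact this.mono_left hUtop
    refine squeeze_zero (fun k => by positivity) (fun k => ?_) h1
    have : ((k : ℝ) + 1) ≤ (p k).2 := by exact_mod_cast hp2 k
    rw [mul_one_div]
    gcongr
  -- comparison of limits
  have hcmp : ∀ F G : ℕ → ℝ, ∀ x y : ℝ, Tendsto F U (nhds x) → Tendsto G U (nhds y) →
      (∀ k, |F k - G k| ≤ 2 / ((p k).2 : ℝ)) → x = y := by
    intro F G x y hF hG h
    have h1 : Tendsto (fun k => F k - G k) U (nhds (x - y)) := hF.sub hG
    have h2 : Tendsto (fun k => F k - G k) U (nhds 0) :=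
      squeeze_zero_norm (fun k => by rw [Real.norm_eq_abs]; exact h k) hinv
    have := tendsto_nhds_unique h1 h2
    linarith
  refine ⟨⟨D, fun B => (hD1 B).1, ?_, ?_, ?_, ?_, ?_⟩, ?_⟩
  · -- univ
    refine tendsto_nhds_unique (hD2 Set.univ) ?_
    refine tendsto_const_nhds.congr fun k => ?_
    unfold intervalDensity
    simp only [level_univ]
    rw [Finset.sum_const, Nat.card_Ico, nsmul_eq_mul, mul_one]
    have : ((p k).2 : ℝ) ≠ 0 := by
      have := hp2 k
      exact_mod_cast (by omega : (p k).2 ≠ 0)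
    simp [div_self this]
  · -- union
    intro B C hBC
    refine tendsto_nhds_unique (hD2 (B ∪ C)) (((hD2 B).add (hD2 C)).congr fun k => ?_)
    unfold intervalDensity
    simp only [level_union hBC, Finset.sum_add_distrib, add_div]
  · -- left
    intro B
    refine hcmp _ _ _ _ (hD2 B) ((tendsto_finsetSum Finset.univ
      fun a _ => hD2 (q [a] B)).div_const _) fun k => ?_
    have h1 := shift_avg (F := fun n => (∑ a : α, level (q [a] B) n) / Fintype.card α)
      (G := level B) (fun n => level_succ B n)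
      (fun n => div_nonneg (Finset.sum_nonneg fun a _ => level_nonneg _ _) (Nat.cast_nonneg _))
      (fun n => by
        rw [← level_succ]; exact level_le_one B _)
      (a := (p k).1) (L := (p k).2) (by have := hp1 k; omega)
    have h2 : (∑ n ∈ Finset.Ico (p k).1 ((p k).1 + (p k).2),
        (∑ a : α, level (q [a] B) n) / (Fintype.card α : ℝ)) / ((p k).2 : ℝ) =
        (∑ a : α, intervalDensity (q [a] B) (p k).1 (p k).2) / Fintype.card α := by
      unfold intervalDensity
      rw [← Finset.sum_div, ← Finset.sum_div, Finset.sum_comm, div_div, div_div, mul_comm]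
    rw [h2] at h1
    exact h1
  · -- right
    intro B a
    refine hcmp _ _ _ _ (hD2 _) ((hD2 B).div_const _) fun k => ?_
    have h1 := shift_avg (F := fun n => level B n / Fintype.card α)
      (G := level {w | ∃ v ∈ B, w = v ++ [a]}) (fun n => level_right B a n)
      (fun n => div_nonneg (level_nonneg _ _) (Nat.cast_nonneg _))
      (fun n => by
        rw [← level_right B a]; exact level_le_one _ _)
      (a := (p k).1) (L := (p k).2) (by have := hp1 k; omega)
    have h2 : (∑ n ∈ Finset.Ico (p k).1 ((p k).1 + (p k).2),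
        level B n / (Fintype.card α : ℝ)) / ((p k).2 : ℝ) =
        intervalDensity B (p k).1 (p k).2 / Fintype.card α := by
      unfold intervalDensity
      rw [← Finset.sum_div, div_div, div_div, mul_comm]
    rw [h2] at h1
    exact h1
  · -- sup
    intro B c hc
    have hc0 : 0 ≤ c := (level_nonneg B 0).trans (hc 0)
    exact le_of_tendsto (hD2 B) (Filter.univ_mem' fun k => hb1' B c hc0 hc _ _)
  · -- value at S
    refine tendsto_nhds_unique (hD2 S) ?_
    rw [tendsto_iff_norm_sub_tendsto_zero]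
    refine squeeze_zero (fun k => norm_nonneg _) (fun k => ?_)
      ((tendsto_one_div_add_atTop_nhds_zero_nat (𝕜 := ℝ)).mono_left hUtop)
    rw [Real.norm_eq_abs]
    exact hp3 k

end Pool.Agent.Lib.MP_48149e
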