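import Pool.Agent.Lib.MP_48149e.Bound

/-!
States: words `u`, `v` are equivalent if `q u S` and `q v S` agree up to a null set.
-/

set_option linter.unusedSectionVars false
set_option linter.unusedVariables false

namespace Pool.Agent.Lib.MP_48149e

variable {α : Type*} [Fintype α] [Nonempty α]

/-- The extremal situation. -/
structure Ext (m : Mean α) (S : Set (List α)) : Prop where
  pf : ThreeProductFree S
  eq : ∀ u, m.d (q u S) = 1 / 3

/-- The Gram matrix of the quotients of `S`. -/
def gr (m : Mean α) (S : Set (List α)) (u v : List α) : ℝ := m.d (q u S ∩ q v S)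

variable {m : Mean α} {S : Set (List α)}

theorem gr_comm (u v : List α) : gr m S u v = gr m S v u := by
  unfold gr; rw [Set.inter_comm]

theorem gr_nonneg (u v : List α) : 0 ≤ gr m S u v := m.nonneg _

theorem Ext.gr_le (E : Ext m S) (u v : List α) : gr m S u v ≤ 1 / 3 := by
  rw [← E.eq u]; exact m.mono Set.inter_subset_left

theorem Ext.gr_self (E : Ext m S) (u : List α) : gr m S u u = 1 / 3 := by
  unfold gr; rw [Set.inter_self, E.eq]

theorem harm_gr (u v : List α) : Harm fun w => gr m S (u ++ w) (v ++ w) := by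
  have := harm_mean m (q u S ∩ q v S)
  simp only [q_inter, q_q] at this
  exact this

/-- Equivalence of words. -/
def Eqv (m : Mean α) (S : Set (List α)) (u v : List α) : Prop := gr m S u v = 1 / 3

/-- Orthogonality of words. -/
def Perp (m : Mean α) (S : Set (List α)) (u v : List α) : Prop := gr m S u v = 0

theorem Perp.symm {u v : List α} (h : Perp m S u v) : Perp m S v u := by
  unfold Perp at *; rwa [gr_comm]

theorem Eqv.symm {u v : List α} (h : Eqv m S u v) : Eqv m S v u := by
  unfold Eqv at *; rwa [gr_comm]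

theorem Perp.right {u v : List α} (h : Perp m S u v) (w : List α) :
    Perp m S (u ++ w) (v ++ w) := by
  have := (harm_gr (m := m) (S := S) u v).zero_of_zero (fun w => gr_nonneg _ _) (u := [])
    (by simpa [Perp] using h) w
  simpa [Perp] using this

theorem Ext.eqv_right (E : Ext m S) {u v : List α} (h : Eqv m S u v) (w : List α) :
    Eqv m S (u ++ w) (v ++ w) := by
  have h1 := ((harm_gr (m := m) (S := S) u v).const_sub (1 / 3)).zero_of_zero (fun w => by
    have := E.gr_le (u ++ w) (v ++ w)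
    show 0 ≤ 1 / 3 - gr m S (u ++ w) (v ++ w)
    linarith) (u := []) (by
      show 1 / 3 - gr m S (u ++ []) (v ++ []) = 0
      rw [List.append_nil, List.append_nil]
      unfold Eqv at h
      rw [h, sub_self]) w
  have h2 : 1 / 3 - gr m S (u ++ ([] ++ w)) (v ++ ([] ++ w)) = 0 := h1
  rw [List.nil_append] at h2
  unfold Eqv
  linarith

theorem Ext.eqv_refl (E : Ext m S) (u : List α) : Eqv m S u u := E.gr_self u

theorem Ext.null_diff (E : Ext m S) {u v : List α} (h : Eqv m S u v) :
    m.d (q u S \ q v S) = 0 := by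
  have h1 := m.inter_add_diff (q u S) (q v S)
  unfold Eqv gr at h
  rw [h, E.eq] at h1
  linarith

/-- Equivalent words have the same inner products with every set. -/
theorem Ext.inter_congr (E : Ext m S) {u v : List α} (h : Eqv m S u v) (D : Set (List α)) :
    m.d (q u S ∩ D) = m.d (q v S ∩ D) := by
  have key : ∀ {u v : List α}, Eqv m S u v → m.d (q u S ∩ D) ≤ m.d (q v S ∩ D) := by
    intro u v h
    refine m.le_of_null_diff (m.null_mono ?_ (E.null_diff h))
    rintro w ⟨⟨h1, h2⟩, h3⟩
    exact ⟨h1, fun h4 => h3 ⟨h4, h2⟩⟩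
  exact le_antisymm (key h) (key h.symm)

theorem Ext.gr_congr (E : Ext m S) {u u' : List α} (h : Eqv m S u u') (v : List α) :
    gr m S u v = gr m S u' v := E.inter_congr h _

theorem Ext.gr_congr_right (E : Ext m S) {u u' : List α} (h : Eqv m S u u') (v : List α) :
    gr m S v u = gr m S v u' := by
  rw [gr_comm, E.gr_congr h, gr_comm]

theorem Ext.eqv_trans (E : Ext m S) {u v w : List α} (h : Eqv m S u v) (h' : Eqv m S v w) :
    Eqv m S u w := by
  unfold Eqv at *
  rw [E.gr_congr h]; exact h'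

/-- Three pairwise orthogonal words give a partition up to null sets. -/
theorem Ext.part (E : Ext m S) {u v w : List α} (huv : Perp m S u v) (huw : Perp m S u w)
    (hvw : Perp m S v w) (D : Set (List α)) :
    m.d (q u S ∩ D) + m.d (q v S ∩ D) + m.d (q w S ∩ D) = m.d D := by
  have key : ∀ D : Set (List α), m.d (q u S ∩ D) + m.d (q v S ∩ D) + m.d (q w S ∩ D) =
      m.d ((q u S ∪ (q v S ∪ q w S)) ∩ D) := by
    intro D
    have h1 := m.union_add_inter (q v S ∩ D) (q w S ∩ D)
    have h2 := m.union_add_inter (q u S ∩ D) ((q v S ∩ D) ∪ (q w S ∩ D))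
    have h3 : m.d ((q v S ∩ D) ∩ (q w S ∩ D)) = 0 :=
      m.null_mono (C := q v S ∩ q w S) (fun z hz => ⟨hz.1.1, hz.2.1⟩) hvw
    have h4 : m.d ((q u S ∩ D) ∩ ((q v S ∩ D) ∪ (q w S ∩ D))) = 0 := by
      refine m.null_mono (C := (q u S ∩ q v S) ∪ (q u S ∩ q w S)) ?_ (m.null_union huv huw)
      rintro z ⟨⟨a1, -⟩, b | b⟩
      · exact Or.inl ⟨a1, b.1⟩
      · exact Or.inr ⟨a1, b.1⟩
    have h5 : (q u S ∪ (q v S ∪ q w S)) ∩ D = (q u S ∩ D) ∪ ((q v S ∩ D) ∪ (q w S ∩ D)) := by
      rw [Set.union_inter_distrib_right, Set.union_inter_distrib_right]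
    rw [h5]
    linarith
  have h6 := key Set.univ
  simp only [Set.inter_univ, E.eq] at h6
  have h7 := m.inter_add_diff D (q u S ∪ (q v S ∪ q w S))
  have h8 : m.d (D \ (q u S ∪ (q v S ∪ q w S))) = 0 := by
    refine m.null_mono (C := (q u S ∪ (q v S ∪ q w S))ᶜ) (fun z hz => hz.2) ?_
    rw [m.compl]
    linarith
  rw [key D, Set.inter_comm]
  linarith

/-- `SS` is orthogonal to the empty word. -/
theorem Ext.perp_mul (E : Ext m S) {x y : List α} (hx : x ∈ S) (hy : y ∈ S) :
    Perp m S (x ++ y) [] := by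
  have := q_inter_eq_empty E.pf hx hy []
  rw [List.append_nil] at this
  unfold Perp gr
  rw [this, m.empty]

/-- The elements of `S` which are orthogonal to the empty word. -/
def X (m : Mean α) (S : Set (List α)) : Set (List α) := {x | x ∈ S ∧ Perp m S x []}

/-- If `x, y ∈ X` then `w`, `yw`, `xyw` are pairwise orthogonal. -/
theorem Ext.triple (E : Ext m S) {x y : List α} (hx : x ∈ X m S) (hy : y ∈ X m S)
    (w : List α) (D : Set (List α)) :
    m.d (q w S ∩ D) + m.d (q (y ++ w) S ∩ D) + m.d (q (x ++ (y ++ w)) S ∩ D) = m.d D := by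
  have h1 : Perp m S (y ++ w) w := by simpa using hy.2.right w
  have h2 : Perp m S (x ++ (y ++ w)) (y ++ w) := by simpa using hx.2.right (y ++ w)
  have h3 : Perp m S (x ++ (y ++ w)) w := by
    simpa using (E.perp_mul hx.1 hy.1).right w
  exact E.part h1.symm h3.symm h2.symm D

/-- `XXX` is equivalent to the empty word. -/
theorem Ext.xxx (E : Ext m S) {x y z : List α} (hx : x ∈ X m S) (hy : y ∈ X m S)
    (hz : z ∈ X m S) : Eqv m S (x ++ (y ++ z)) [] := by
  have h1 := E.triple hx hy z (q [] S)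
  have h2 : m.d (q z S ∩ q [] S) = 0 := hz.2
  have h3 : m.d (q (y ++ z) S ∩ q [] S) = 0 := E.perp_mul hy.1 hz.1
  rw [h2, h3, E.eq] at h1
  unfold Eqv gr
  linarith

variable (m S) in
/-- The words equivalent to the empty word. -/
def H : Set (List α) := {w | Eqv m S w []}

theorem mean_X_const (E : Ext m S) (hX : 0 < m.d (X m S)) (u : List α) :
    m.d (q u (X m S)) = m.d (X m S) := by
  set ρ : List α → ℝ := fun u => m.d (q u (X m S)) with hρ
  have hρh : Harm ρ := harm_mean m _
  -- `ρ` depends only on the state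
  have hstate : ∀ {u v : List α}, Eqv m S u v → ρ u = ρ v := by
    have key : ∀ {u v : List α}, Eqv m S u v → ρ u ≤ ρ v := by
      intro u v h
      refine m.le_of_null_diff (m.null_mono ?_ (E.null_diff h))
      rintro w ⟨h1, h2⟩
      refine ⟨h1.1, fun h4 => h2 ⟨h4, ?_⟩⟩
      have h5 : gr m S (u ++ w) [] = gr m S (v ++ w) [] := E.gr_congr (E.eqv_right h w) _
      have h6 : gr m S (u ++ w) [] = 0 := h1.2
      show gr m S (v ++ w) [] = 0
      rw [← h5, h6]
    intro u v h
    exact le_antisymm (key h) (key h.symm)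
  set x₀ : ℝ := m.d (X m S) with hx₀
  have hρ1 : ρ [] = x₀ := rfl
  have hbdd : BddAbove (Set.range ρ) := ⟨1, by rintro _ ⟨u, rfl⟩; exact m.le_one _⟩
  set M : ℝ := ⨆ u, ρ u with hM
  have hle : ∀ u, ρ u ≤ M := fun u => le_ciSup hbdd u
  have hx₀M : x₀ ≤ M := hle []
  have hMle : M ≤ x₀ := by
    by_contra hcon
    rw [not_le] at hcon
    have hψ := hρh.const_sub M
    have hψ0 : ∀ w, 0 ≤ M - ρ w := fun w => by linarith [hle w]
    have s1 : ∀ p ∈ X m S, ∀ x ∈ X m S, (M - x₀) * x₀ ≤ M - ρ (p ++ x) := by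
      intro p hp x hx
      have := hψ.mean_le m (c := 0) (C := M - x₀) hψ0 (by linarith) (p ++ x) (X m S)
        (fun w hw => by
          have h1 : ρ (p ++ x ++ w) = x₀ := by
            rw [List.append_assoc, hstate (E.xxx hp hx hw), hρ1]
          show M - x₀ ≤ M - ρ (p ++ x ++ w)
          rw [h1])
      have h2 : 0 + (M - x₀ - 0) * x₀ ≤ M - ρ (p ++ x) := this
      linarith
    have hc1 : 0 ≤ (M - x₀) * x₀ := mul_nonneg (by linarith) hX.le
    have s2 : ∀ p ∈ X m S, (M - x₀) * x₀ * x₀ ≤ M - ρ p := by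
      intro p hp
      have := hψ.mean_le m (c := 0) (C := (M - x₀) * x₀) hψ0 hc1 p (X m S)
        (fun w hw => s1 p hp w hw)
      have h2 : 0 + ((M - x₀) * x₀ - 0) * x₀ ≤ M - ρ p := this
      linarith
    have hc2 : 0 ≤ (M - x₀) * x₀ * x₀ := mul_nonneg hc1 hX.le
    have s3 : ∀ u, (M - x₀) * x₀ * x₀ * ρ u ≤ M - ρ u := by
      intro u
      have := hψ.mean_le m (c := 0) (C := (M - x₀) * x₀ * x₀) hψ0 hc2 u (q u (X m S))
        (fun w hw => s2 _ hw)
      have h2 : 0 + ((M - x₀) * x₀ * x₀ - 0) * ρ u ≤ M - ρ u := this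
      linarith
    set c : ℝ := (M - x₀) * x₀ * x₀ with hc
    have hcpos : 0 < c := by
      rw [hc]; exact mul_pos (mul_pos (by linarith) hX) hX
    have s4 : ∀ u, ρ u ≤ M / (1 + c) := by
      intro u
      rw [le_div_iff₀ (by linarith)]
      have := s3 u
      nlinarith
    have s5 : M ≤ M / (1 + c) := ciSup_le s4
    rw [le_div_iff₀ (by linarith)] at s5
    have : 0 < M := hX.trans_le hx₀M
    nlinarith
  have h1 := (hρh.const_sub x₀).zero_of_zero (fun w => by
    show 0 ≤ x₀ - ρ w
    have := hle w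
    linarith) (u := []) (by show x₀ - ρ [] = 0; rw [hρ1, sub_self]) u
  have h2 : x₀ - ρ ([] ++ u) = 0 := h1
  rw [List.nil_append] at h2
  show ρ u = x₀
  linarith

theorem recurrent_X (E : Ext m S) (hX : 0 < m.d (X m S)) : Recurrent m (X m S) :=
  ⟨_, hX, fun u => (mean_X_const E hX u).ge⟩

theorem recurrent_XX (E : Ext m S) (hX : 0 < m.d (X m S)) :
    Recurrent m {w | ∃ x ∈ X m S, ∃ y ∈ X m S, w = x ++ y} :=
  (recurrent_X E hX).mul hX fun x hx y hy => ⟨x, hx, y, hy, rfl⟩

theorem recurrent_H (E : Ext m S) (hX : 0 < m.d (X m S)) : Recurrent m (H m S) :=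
  (recurrent_XX E hX).mul hX (by
    rintro _ ⟨x, hx, y, hy, rfl⟩ z hz
    rw [List.append_assoc]
    exact E.xxx hx hy hz)

/-- Sets whose mean in a cylinder depends only on the state are equidistributed. -/
theorem sd_const (E : Ext m S) (hX : 0 < m.d (X m S)) {B : Set (List α)}
    (hB : ∀ u, Eqv m S u [] → m.d (q u B) = m.d B) (u : List α) : m.d (q u B) = m.d B :=
  (harm_mean m B).eq_const (K₁ := 0) (K₂ := 1) (fun w => m.nonneg _) (fun w => m.le_one _)
    (recurrent_H E hX) (fun w hw => hB w hw) u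

/-- Two words which become equivalent after any element of a recurrent set are equivalent. -/
theorem Ext.eqv_of_recurrent (E : Ext m S) {u v : List α} {B : Set (List α)}
    (hB : Recurrent m B) (h : ∀ w ∈ B, Eqv m S (u ++ w) (v ++ w)) : Eqv m S u v := by
  have h1 := ((harm_gr (m := m) (S := S) u v).const_sub (1 / 3)).le_zero (K := 1 / 3)
    (fun w => by
      have := gr_nonneg (m := m) (S := S) (u ++ w) (v ++ w)
      show 1 / 3 - gr m S (u ++ w) (v ++ w) ≤ 1 / 3
      linarith) hB (fun w hw => by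
      have := h w hw
      unfold Eqv at this
      show 1 / 3 - gr m S (u ++ w) (v ++ w) ≤ 0
      linarith) []
  have h2 : 1 / 3 - gr m S (u ++ []) (v ++ []) ≤ 0 := h1
  rw [List.append_nil, List.append_nil] at h2
  have h3 := E.gr_le u v
  unfold Eqv
  linarith

/-- All elements of `X` are equivalent. -/
theorem Ext.x_eqv (E : Ext m S) (hX : 0 < m.d (X m S)) {x y : List α} (hx : x ∈ X m S)
    (hy : y ∈ X m S) : Eqv m S x y := by
  refine E.eqv_of_recurrent (recurrent_XX E hX) ?_
  rintro _ ⟨z, hz, t, ht, rfl⟩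
  exact E.eqv_trans (E.xxx hx hz ht) (E.xxx hy hz ht).symm

/-- All elements of `XX` are equivalent. -/
theorem Ext.xx_eqv (E : Ext m S) (hX : 0 < m.d (X m S)) {x x' y y' : List α}
    (hx : x ∈ X m S) (hx' : x' ∈ X m S) (hy : y ∈ X m S) (hy' : y' ∈ X m S) :
    Eqv m S (x ++ x') (y ++ y') := by
  have h1 := E.triple hy hy' [] (q (x ++ x') S)
  simp only [List.append_nil] at h1
  have h2 : m.d (q [] S ∩ q (x ++ x') S) = 0 := (E.perp_mul hx.1 hx'.1).symm
  have h3 : m.d (q y' S ∩ q (x ++ x') S) = 0 := by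
    rw [E.inter_congr (E.x_eqv hX hy' hx')]
    have := hx.2.right x'
    rw [List.nil_append] at this
    exact this.symm
  rw [h2, h3, E.eq] at h1
  apply Eqv.symm
  unfold Eqv gr
  linarith

end Pool.Agent.Lib.MP_48149e
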